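import Mathlib

/-!
# Driven Lindblad equations: definitions and uniqueness
-/

set_option autoImplicit false

noncomputable section

namespace Pool.Agent.V11261.LB

open Matrix MeasureTheory Set intervalIntegral

/-- complex `d × d` matrices -/
abbrev Mat (d : ℕ) := Matrix (Fin d) (Fin d) ℂ

/-- `D_L(ρ) = L ρ L† - (1/2) {L† L, ρ}` -/
def diss {d : ℕ} (L ρ : Mat d) : Mat d :=
  L * ρ * Lᴴ - (1 / 2 : ℂ) • (Lᴴ * L * ρ + ρ * (Lᴴ * L))

/-- the dissipator -/
def DD {d m : ℕ} (L : Fin m → Mat d) (ρ : Mat d) : Mat d := ∑ j, diss (L j) ρ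

/-- the Lindbladian `-i [H, ρ] + ∑_j D_{L_j}(ρ)` -/
def lind {d m : ℕ} (H : Mat d) (L : Fin m → Mat d) (ρ : Mat d) : Mat d :=
  (-Complex.I) • (H * ρ - ρ * H) + ∑ j, diss (L j) ρ

/-- the admissible drives: Hermitian, measurable and locally bounded -/
structure IsDrive {d : ℕ} (H : ℝ → Mat d) : Prop where
  /-- Hermitian values -/
  herm : ∀ t, (H t).IsHermitian
  /-- measurable entries -/
  meas : ∀ i j, Measurable fun t => H t i j
  /-- entries bounded on bounded intervals -/
  bdd : ∀ T : ℝ, ∃ C : ℝ, ∀ t ∈ Icc 0 T, ∀ i j, ‖H t i j‖ ≤ C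

/-- `X` solves the Lindblad equation on `[s, ∞)`; it is a continuous function on the line -/
structure Sol {d m : ℕ} (H : ℝ → Mat d) (L : Fin m → Mat d) (s : ℝ) (X : ℝ → Mat d) : Prop where
  cont : Continuous X
  eq : ∀ t, s ≤ t → ∀ i j, X t i j = X s i j + ∫ r in s..t, lind (H r) L (X r) i j

variable {d m : ℕ}

theorem diss_add (L ρ σ : Mat d) : diss L (ρ + σ) = diss L ρ + diss L σ := by
  unfold diss
  simp only [Matrix.mul_add, Matrix.add_mul, smul_add]
  abel

theorem diss_smul (L ρ : Mat d) (c : ℂ) : diss L (c • ρ) = c • diss L ρ := by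
  unfold diss
  simp only [Matrix.mul_smul, Matrix.smul_mul, smul_sub, smul_add]
  rw [smul_comm c (1 / 2 : ℂ), smul_comm c (1 / 2 : ℂ)]

theorem lind_add (H : Mat d) (L : Fin m → Mat d) (ρ σ : Mat d) :
    lind H L (ρ + σ) = lind H L ρ + lind H L σ := by
  unfold lind
  simp only [diss_add, Finset.sum_add_distrib, Matrix.mul_add, Matrix.add_mul]
  rw [show H * ρ + H * σ - (ρ * H + σ * H) = (H * ρ - ρ * H) + (H * σ - σ * H) by abel, smul_add]
  abel

theorem lind_smul (H : Mat d) (L : Fin m → Mat d) (ρ : Mat d) (c : ℂ) :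
    lind H L (c • ρ) = c • lind H L ρ := by
  unfold lind
  simp only [diss_smul, ← Finset.smul_sum, Matrix.mul_smul, Matrix.smul_mul, ← smul_sub, smul_add]
  rw [smul_comm c]

theorem lind_neg (H : Mat d) (L : Fin m → Mat d) (ρ : Mat d) :
    lind H L (-ρ) = -lind H L ρ := by
  have := lind_smul H L ρ (-1)
  rwa [neg_one_smul, neg_one_smul] at this

theorem lind_sub (H : Mat d) (L : Fin m → Mat d) (ρ σ : Mat d) :
    lind H L (ρ - σ) = lind H L ρ - lind H L σ := by
  rw [sub_eq_add_neg, lind_add, lind_neg, ← sub_eq_add_neg]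

theorem lind_conjTranspose {H : Mat d} (hH : H.IsHermitian) (L : Fin m → Mat d) (ρ : Mat d) :
    lind H L ρᴴ = (lind H L ρ)ᴴ := by
  unfold lind
  rw [Matrix.conjTranspose_add, Matrix.conjTranspose_sum, Matrix.conjTranspose_smul,
    Matrix.conjTranspose_sub, Matrix.conjTranspose_mul, Matrix.conjTranspose_mul, hH.eq]
  congr 1
  · simp only [star_neg, Complex.star_def, Complex.conj_I, neg_neg]
    rw [← neg_smul_neg]
    simp
  · refine Finset.sum_congr rfl fun j _ => ?_
    unfold diss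
    simp only [Matrix.conjTranspose_sub, Matrix.conjTranspose_smul, Matrix.conjTranspose_add,
      Matrix.conjTranspose_mul, Matrix.conjTranspose_conjTranspose, Matrix.mul_assoc]
    have : star (1 / 2 : ℂ) = 1 / 2 := by
      rw [Complex.star_def]
      apply Complex.ext <;> simp
    rw [this, add_comm]

theorem trace_diss (L ρ : Mat d) : (diss L ρ).trace = 0 := by
  unfold diss
  rw [Matrix.trace_sub, Matrix.trace_smul, Matrix.trace_add, Matrix.trace_mul_comm (L * ρ) Lᴴ,
    ← Matrix.mul_assoc, Matrix.trace_mul_comm ρ (Lᴴ * L), smul_eq_mul]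
  ring

theorem trace_lind (H : Mat d) (L : Fin m → Mat d) (ρ : Mat d) : (lind H L ρ).trace = 0 := by
  unfold lind
  rw [Matrix.trace_add, Matrix.trace_smul, Matrix.trace_sub, Matrix.trace_mul_comm H ρ, sub_self,
    smul_zero, zero_add, Matrix.trace_sum]
  exact Finset.sum_eq_zero fun j _ => trace_diss _ _

/-- the `ℓ¹` norm of the entries -/
def nn (ρ : Mat d) : ℝ := ∑ a, ∑ b, ‖ρ a b‖

theorem nn_nonneg (ρ : Mat d) : 0 ≤ nn ρ :=
  Finset.sum_nonneg fun _ _ => Finset.sum_nonneg fun _ _ => norm_nonneg _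

theorem entry_le (ρ : Mat d) (i j : Fin d) : ‖ρ i j‖ ≤ nn ρ := by
  refine le_trans ?_ (Finset.single_le_sum (f := fun a => ∑ b, ‖ρ a b‖)
    (fun a _ => Finset.sum_nonneg fun b _ => norm_nonneg _) (Finset.mem_univ i))
  exact Finset.single_le_sum (f := fun b => ‖ρ i b‖) (fun b _ => norm_nonneg _)
    (Finset.mem_univ j)

theorem nn_add (ρ σ : Mat d) : nn (ρ + σ) ≤ nn ρ + nn σ := by
  unfold nn
  rw [← Finset.sum_add_distrib]
  refine Finset.sum_le_sum fun a _ => ?_
  rw [← Finset.sum_add_distrib]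
  exact Finset.sum_le_sum fun b _ => norm_add_le _ _

theorem nn_smul (c : ℂ) (ρ : Mat d) : nn (c • ρ) = ‖c‖ * nn ρ := by
  unfold nn
  rw [Finset.mul_sum]
  refine Finset.sum_congr rfl fun a _ => ?_
  rw [Finset.mul_sum]
  refine Finset.sum_congr rfl fun b _ => ?_
  rw [Matrix.smul_apply, smul_eq_mul, norm_mul]

theorem nn_neg (ρ : Mat d) : nn (-ρ) = nn ρ := by
  unfold nn
  simp

theorem nn_sub (ρ σ : Mat d) : nn (ρ - σ) ≤ nn ρ + nn σ := by
  rw [sub_eq_add_neg, ← nn_neg σ]
  exact nn_add _ _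

theorem nn_mul (ρ σ : Mat d) : nn (ρ * σ) ≤ nn ρ * nn σ := by
  have h1 : nn (ρ * σ) ≤ ∑ a, ∑ b, ∑ k, ‖ρ a k‖ * ‖σ k b‖ := by
    unfold nn
    refine Finset.sum_le_sum fun a _ => Finset.sum_le_sum fun b _ => ?_
    rw [Matrix.mul_apply]
    refine (norm_sum_le _ _).trans (Finset.sum_le_sum fun k _ => ?_)
    rw [norm_mul]
  refine h1.trans ?_
  have h2 : ∑ a, ∑ b, ∑ k, ‖ρ a k‖ * ‖σ k b‖ = ∑ a, ∑ k, ‖ρ a k‖ * ∑ b, ‖σ k b‖ := by
    refine Finset.sum_congr rfl fun a _ => ?_
    rw [Finset.sum_comm]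
    refine Finset.sum_congr rfl fun k _ => ?_
    rw [Finset.mul_sum]
  rw [h2]
  have h3 : ∀ a k, ‖ρ a k‖ * ∑ b, ‖σ k b‖ ≤ ‖ρ a k‖ * nn σ := by
    intro a k
    refine mul_le_mul_of_nonneg_left ?_ (norm_nonneg _)
    exact Finset.single_le_sum (f := fun a => ∑ b, ‖σ a b‖)
      (fun a _ => Finset.sum_nonneg fun b _ => norm_nonneg _) (Finset.mem_univ k)
  refine (Finset.sum_le_sum fun a _ => Finset.sum_le_sum fun k _ => h3 a k).trans ?_
  unfold nn
  rw [Finset.sum_mul]
  refine Finset.sum_le_sum fun a _ => ?_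
  rw [Finset.sum_mul]

theorem nn_sum {ι : Type*} (s : Finset ι) (f : ι → Mat d) : nn (∑ j ∈ s, f j) ≤ ∑ j ∈ s, nn (f j) := by
  classical
  induction s using Finset.induction_on with
  | empty => simp [nn]
  | insert a s ha ih =>
    rw [Finset.sum_insert ha, Finset.sum_insert ha]
    exact (nn_add _ _).trans (add_le_add le_rfl ih)

theorem nn_diss (L ρ : Mat d) : nn (diss L ρ) ≤ (nn L * nn Lᴴ + nn (Lᴴ * L)) * nn ρ := by
  unfold diss
  refine (nn_sub _ _).trans ?_
  rw [nn_smul]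
  have h1 : nn (L * ρ * Lᴴ) ≤ nn L * nn ρ * nn Lᴴ :=
    (nn_mul _ _).trans (mul_le_mul_of_nonneg_right (nn_mul _ _) (nn_nonneg _))
  have h2 : nn (Lᴴ * L * ρ + ρ * (Lᴴ * L)) ≤ 2 * (nn (Lᴴ * L) * nn ρ) := by
    refine (nn_add _ _).trans ?_
    have := nn_mul (Lᴴ * L) ρ
    have := nn_mul ρ (Lᴴ * L)
    linarith
  have h3 : ‖(1 / 2 : ℂ)‖ = 1 / 2 := by simp
  rw [h3]
  nlinarith

/-- a bound for the entries of the Lindbladian -/
theorem lind_bound (L : Fin m → Mat d) : ∃ K : ℝ, 0 ≤ K ∧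
    ∀ (H ρ : Mat d), nn (lind H L ρ) ≤ (2 * nn H + K) * nn ρ := by
  refine ⟨∑ j, (nn (L j) * nn (L j)ᴴ + nn ((L j)ᴴ * L j)), ?_, ?_⟩
  · refine Finset.sum_nonneg fun j _ => ?_
    have := nn_nonneg (L j)
    have := nn_nonneg (L j)ᴴ
    have := nn_nonneg ((L j)ᴴ * L j)
    positivity
  · intro H ρ
    unfold lind
    refine (nn_add _ _).trans ?_
    rw [nn_smul]
    have h1 : nn (H * ρ - ρ * H) ≤ 2 * nn H * nn ρ := by
      refine (nn_sub _ _).trans ?_
      have := nn_mul H ρ
      have := nn_mul ρ H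
      linarith
    have h2 : nn (∑ j, diss (L j) ρ) ≤
        (∑ j, (nn (L j) * nn (L j)ᴴ + nn ((L j)ᴴ * L j))) * nn ρ := by
      refine (nn_sum _ _).trans ?_
      rw [Finset.sum_mul]
      exact Finset.sum_le_sum fun j _ => nn_diss _ _
    have h3 : ‖-Complex.I‖ = 1 := by simp
    rw [h3, one_mul]
    linarith

/-- a bounded drive -/
theorem drive_bound {H : ℝ → Mat d} (hH : IsDrive H) (T : ℝ) :
    ∃ C : ℝ, 0 ≤ C ∧ ∀ t ∈ Icc 0 T, nn (H t) ≤ C := by
  obtain ⟨C, hC⟩ := hH.bdd T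
  refine ⟨max 0 (d * (d * C)), le_max_left _ _, fun t ht => ?_⟩
  refine le_trans ?_ (le_max_right _ _)
  unfold nn
  refine (Finset.sum_le_sum fun a _ => Finset.sum_le_sum fun b _ => hC t ht a b).trans ?_
  simp

theorem continuous_diss (L : Mat d) : Continuous fun ρ : Mat d => diss L ρ := by
  unfold diss
  fun_prop

theorem continuous_nn : Continuous fun ρ : Mat d => nn ρ := by
  unfold nn
  fun_prop

/-- measurability of the right side -/
theorem lind_meas {H : ℝ → Mat d} (hH : IsDrive H) (L : Fin m → Mat d) {X : ℝ → Mat d}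
    (hX : Continuous X) (i j : Fin d) : Measurable fun r => lind (H r) L (X r) i j := by
  have hXm : ∀ a b, Measurable fun r => X r a b := fun a b =>
    (hX.matrix_elem a b).measurable
  have hD : Measurable fun r => (∑ j, diss (L j) (X r)) i j := by
    have : Continuous fun r => (∑ j, diss (L j) (X r)) i j := by
      refine Continuous.matrix_elem ?_ i j
      exact continuous_finsetSum _ fun k _ => (continuous_diss (L k)).comp hX
    exact this.measurable
  have hC : Measurable fun r => ((-Complex.I) • (H r * X r - X r * H r)) i j := by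
    simp only [Matrix.smul_apply, Matrix.sub_apply, Matrix.mul_apply, smul_eq_mul]
    refine Measurable.const_mul (Measurable.sub ?_ ?_) _
    · exact Finset.measurable_sum _ fun k _ => (hH.meas i k).mul (hXm k j)
    · exact Finset.measurable_sum _ fun k _ => (hXm i k).mul (hH.meas k j)
  exact hC.add hD

/-- integrability of the right side -/
theorem lind_integrable {H : ℝ → Mat d} (hH : IsDrive H) (L : Fin m → Mat d) {X : ℝ → Mat d}
    (hX : Continuous X) (i j : Fin d) {a b : ℝ} (ha : 0 ≤ a) (hb : 0 ≤ b) :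
    IntervalIntegrable (fun r => lind (H r) L (X r) i j) volume a b := by
  obtain ⟨K, hK0, hK⟩ := lind_bound L
  obtain ⟨C, hC0, hC⟩ := drive_bound hH (max a b)
  obtain ⟨B, hB⟩ := (isCompact_Icc (a := (0 : ℝ)) (b := max a b)).exists_bound_of_continuousOn
    (continuous_nn.comp hX).continuousOn
  rw [intervalIntegrable_iff]
  refine Measure.integrableOn_of_bounded (M := (2 * C + K) * B) ?_
    (lind_meas hH L hX i j).aestronglyMeasurable ?_
  · rw [uIoc]
    exact measure_Ioc_lt_top.ne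
  · refine (ae_restrict_iff' measurableSet_uIoc).2 (Filter.Eventually.of_forall fun r hr => ?_)
    have hr' : r ∈ Icc 0 (max a b) := by
      rw [mem_uIoc] at hr
      rcases hr with h | h
      · exact ⟨by linarith [h.1], h.2.trans (le_max_right _ _)⟩
      · exact ⟨by linarith [h.1], h.2.trans (le_max_left _ _)⟩
    refine (entry_le _ i j).trans ((hK _ _).trans ?_)
    have h1 := hC r hr'
    have h2 := hB r hr'
    simp only [Function.comp, Real.norm_eq_abs, abs_of_nonneg (nn_nonneg _)] at h2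
    have := nn_nonneg (X r)
    have := nn_nonneg (H r)
    exact mul_le_mul (by linarith) h2 (nn_nonneg _) (by linarith)

/-- a solution is a solution from any later time -/
theorem Sol.restrict {H : ℝ → Mat d} (hH : IsDrive H) {L : Fin m → Mat d} {s : ℝ} (hs : 0 ≤ s)
    {X : ℝ → Mat d} (hX : Sol H L s X) {t : ℝ} (ht : s ≤ t) : Sol H L t X := by
  refine ⟨hX.cont, fun u hu i j => ?_⟩
  have h1 := hX.eq u (ht.trans hu) i j
  have h2 := hX.eq t ht i j
  have h3 := intervalIntegral.integral_add_adjacent_intervals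
    (lind_integrable hH L hX.cont i j hs (hs.trans ht))
    (lind_integrable hH L hX.cont i j (hs.trans ht) (hs.trans (ht.trans hu)))
  rw [h1, h2, ← h3, add_assoc]

theorem Sol.sub {H : ℝ → Mat d} (hH : IsDrive H) {L : Fin m → Mat d} {s : ℝ} (hs : 0 ≤ s)
    {X Y : ℝ → Mat d} (hX : Sol H L s X) (hY : Sol H L s Y) : Sol H L s (fun t => X t - Y t) := by
  refine ⟨hX.cont.sub hY.cont, fun t ht i j => ?_⟩
  rw [Matrix.sub_apply, Matrix.sub_apply, hX.eq t ht i j, hY.eq t ht i j]
  have h1 : ∫ r in s..t, lind (H r) L (X r - Y r) i j =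
      ∫ r in s..t, (lind (H r) L (X r) i j - lind (H r) L (Y r) i j) := by
    refine intervalIntegral.integral_congr fun r _ => ?_
    simp only [lind_sub, Matrix.sub_apply]
  rw [h1, intervalIntegral.integral_sub (lind_integrable hH L hX.cont i j hs (hs.trans ht))
    (lind_integrable hH L hY.cont i j hs (hs.trans ht))]
  ring

theorem Sol.conjTranspose {H : ℝ → Mat d} (hH : IsDrive H) {L : Fin m → Mat d} {s : ℝ}
    {X : ℝ → Mat d} (hX : Sol H L s X) : Sol H L s (fun t => (X t)ᴴ) := by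
  refine ⟨hX.cont.matrix_conjTranspose, fun t ht i j => ?_⟩
  simp only [Matrix.conjTranspose_apply]
  rw [hX.eq t ht j i, star_add]
  congr 1
  have h1 : ∀ r, lind (H r) L (X r)ᴴ i j = star (lind (H r) L (X r) j i) := by
    intro r
    rw [lind_conjTranspose (hH.herm r), Matrix.conjTranspose_apply]
  simp only [h1]
  simp only [intervalIntegral.integral_of_le ht]
  exact integral_conj.symm

/-- uniqueness -/
theorem Sol.eq_zero {H : ℝ → Mat d} (hH : IsDrive H) {L : Fin m → Mat d} {s : ℝ} (hs : 0 ≤ s)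
    {X : ℝ → Mat d} (hX : Sol H L s X) (h0 : X s = 0) (t : ℝ) (ht : s ≤ t) : X t = 0 := by
  obtain ⟨K, hK0, hK⟩ := lind_bound L
  obtain ⟨C, hC0, hC⟩ := drive_bound hH t
  have hcont : Continuous fun r => nn (X r) := continuous_nn.comp hX.cont
  obtain ⟨F, hF⟩ : ∃ F : ℝ → ℝ, ∀ x, F x = ∫ r in s..x, nn (X r) := ⟨_, fun _ => rfl⟩
  have hF' : ∀ x, HasDerivAt F (nn (X x)) x := by
    intro x
    have h1 : F = fun x => ∫ r in s..x, nn (X r) := funext hF
    rw [h1]
    exact intervalIntegral.integral_hasDerivAt_right (hcont.intervalIntegrable _ _)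
      (hcont.stronglyMeasurableAtFilter _ _) hcont.continuousAt
  have hF0 : F s = 0 := by rw [hF, intervalIntegral.integral_same]
  have hFnn : ∀ x, s ≤ x → 0 ≤ F x := by
    intro x hx
    rw [hF]
    exact intervalIntegral.integral_nonneg hx fun r _ => nn_nonneg _
  -- the integral inequality
  have hent : ∀ x, s ≤ x → x ≤ t → ∀ i j, ‖X x i j‖ ≤ (2 * C + K) * F x := by
    intro x hx hxt i j
    rw [hX.eq x hx i j, h0, Matrix.zero_apply, zero_add, hF, ← intervalIntegral.integral_const_mul]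
    refine intervalIntegral.norm_integral_le_of_norm_le hx ?_
      ((hcont.intervalIntegrable _ _).const_mul _)
    refine Filter.Eventually.of_forall fun r hr => ?_
    refine (entry_le _ i j).trans ((hK _ _).trans ?_)
    have h1 := hC r ⟨by linarith [hr.1], hr.2.trans hxt⟩
    exact mul_le_mul_of_nonneg_right (by linarith) (nn_nonneg _)
  have hnn : ∀ x, s ≤ x → x ≤ t → nn (X x) ≤ (d * (d * (2 * C + K))) * F x := by
    intro x hx hxt
    unfold nn
    refine (Finset.sum_le_sum fun a _ => Finset.sum_le_sum fun b _ => hent x hx hxt a b).trans ?_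
    simp
    exact le_of_eq (by ring)
  have hgr := norm_le_gronwallBound_of_norm_deriv_right_le (f := F) (f' := fun x => nn (X x))
    (δ := 0) (K := d * (d * (2 * C + K))) (ε := 0) (a := s) (b := t)
    (fun x _ => (hF' x).continuousAt.continuousWithinAt) (fun x _ => (hF' x).hasDerivWithinAt)
    (by rw [hF0]; simp) (fun x hx => by
      rw [Real.norm_eq_abs, Real.norm_eq_abs, abs_of_nonneg (nn_nonneg _),
        abs_of_nonneg (hFnn x hx.1), add_zero]
      exact hnn x hx.1 hx.2.le) t ⟨ht, le_rfl⟩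
  have hF1 : F t = 0 := by
    have h1 : gronwallBound 0 (d * (d * (2 * C + K))) 0 (t - s) = 0 := by
      rw [gronwallBound_ε0]
      ring
    rw [h1] at hgr
    exact norm_le_zero_iff.1 hgr
  have h2 := hent t ht le_rfl
  rw [hF1, mul_zero] at h2
  ext i j
  exact norm_le_zero_iff.1 (h2 i j)

theorem Sol.unique {H : ℝ → Mat d} (hH : IsDrive H) {L : Fin m → Mat d} {s : ℝ} (hs : 0 ≤ s)
    {X Y : ℝ → Mat d} (hX : Sol H L s X) (hY : Sol H L s Y) (h0 : X s = Y s) (t : ℝ)
    (ht : s ≤ t) : X t = Y t :=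
  sub_eq_zero.1 ((hX.sub hH hs hY).eq_zero hH hs (by simp [h0]) t ht)

theorem Sol.hermitian {H : ℝ → Mat d} (hH : IsDrive H) {L : Fin m → Mat d} {s : ℝ} (hs : 0 ≤ s)
    {X : ℝ → Mat d} (hX : Sol H L s X) (h0 : (X s).IsHermitian) (t : ℝ) (ht : s ≤ t) :
    (X t).IsHermitian :=
  (hX.conjTranspose hH).unique hH hs hX h0 t ht

theorem Sol.trace {H : ℝ → Mat d} (hH : IsDrive H) {L : Fin m → Mat d} {s : ℝ} (hs : 0 ≤ s)
    {X : ℝ → Mat d} (hX : Sol H L s X) (t : ℝ) (ht : s ≤ t) : (X t).trace = (X s).trace := by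
  unfold Matrix.trace
  simp only [Matrix.diag_apply]
  have h1 : ∀ i, X t i i = X s i i + ∫ r in s..t, lind (H r) L (X r) i i :=
    fun i => hX.eq t ht i i
  rw [Finset.sum_congr rfl fun i _ => h1 i, Finset.sum_add_distrib,
    ← intervalIntegral.integral_finset_sum fun i _ =>
      lind_integrable hH L hX.cont i i hs (hs.trans ht)]
  have h2 : ∀ r, ∑ i, lind (H r) L (X r) i i = 0 := fun r => trace_lind (H r) L (X r)
  simp [h2]

end Pool.Agent.V11261.LB
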