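import Mathlib
import Pool.Agent.V11261.LB.Basic

/-!
# The derivative of the determinant along a solution of the driven Lindblad equation
-/

set_option autoImplicit false

noncomputable section

namespace Pool.Agent.V11261.LB

open Matrix MeasureTheory Set intervalIntegral Asymptotics Filter Topology

variable {d m : ℕ}

/-- matrices as functions of two variables, with the supremum norm -/
abbrev Fn (d : ℕ) := Fin d → Fin d → ℂ

theorem det_differentiable (ρ : Fn d) : DifferentiableAt ℝ (fun M : Fn d => (of M).det) ρ := by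
  have hent : ∀ i j : Fin d, DifferentiableAt ℝ (fun M : Fn d => M i j) ρ := by
    intro i j
    fun_prop
  have : (fun M : Fn d => (of M).det) = fun M => ∑ σ : Equiv.Perm (Fin d),
      ((Equiv.Perm.sign σ : ℤ) : ℂ) * ∏ i, M (σ i) i := by
    funext M
    rw [Matrix.det_apply']
    rfl
  rw [this]
  refine DifferentiableAt.fun_sum fun σ _ => DifferentiableAt.const_mul ?_ _
  have hprod : ∀ u : Finset (Fin d), DifferentiableAt ℝ (fun M : Fn d => ∏ i ∈ u, M (σ i) i) ρ := by
    intro u
    induction u using Finset.induction_on with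
    | empty => simp
    | insert a u ha ih =>
      have : (fun M : Fn d => ∏ i ∈ insert a u, M (σ i) i) =
          fun M => M (σ a) a * ∏ i ∈ u, M (σ i) i := by
        funext M
        rw [Finset.prod_insert ha]
      rw [this]
      exact (hent _ _).mul ih
  exact hprod Finset.univ

theorem det_line (ρ V : Mat d) (hρ : IsUnit ρ.det) :
    HasDerivAt (fun t : ℝ => (ρ + (t : ℂ) • V).det) (ρ.det * (ρ⁻¹ * V).trace) 0 := by
  obtain ⟨p, hp⟩ : ∃ p : Polynomial ℂ, p = (det (1 + (Polynomial.X : Polynomial ℂ) •
    (ρ⁻¹ * V).map Polynomial.C)).divX.divX := ⟨_, rfl⟩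
  have h1 : ∀ t : ℝ, (ρ + (t : ℂ) • V).det =
      ρ.det * (1 + (ρ⁻¹ * V).trace * (t : ℂ) + p.eval (t : ℂ) * (t : ℂ) ^ 2) := by
    intro t
    have e1 : ρ + (t : ℂ) • V = ρ * (1 + (t : ℂ) • (ρ⁻¹ * V)) := by
      rw [Matrix.mul_add, Matrix.mul_one, Matrix.mul_smul, ← Matrix.mul_assoc,
        Matrix.mul_nonsing_inv _ hρ, Matrix.one_mul]
    rw [e1, Matrix.det_mul, Matrix.det_one_add_smul, hp]
  have h2 : (fun t : ℝ => (ρ + (t : ℂ) • V).det) = fun t : ℝ =>
      ρ.det * (1 + (ρ⁻¹ * V).trace * (t : ℂ) + p.eval (t : ℂ) * (t : ℂ) ^ 2) := funext h1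
  rw [h2]
  have hof : HasDerivAt (fun t : ℝ => (t : ℂ)) 1 0 := Complex.ofRealCLM.hasDerivAt
  have hp1 : HasDerivAt (fun t : ℝ => p.eval (t : ℂ)) (p.derivative.eval ((0 : ℝ) : ℂ) * 1) 0 :=
    (p.hasDerivAt ((0 : ℝ) : ℂ)).comp_ofReal.congr_deriv (by simp)
  have h3 := ((((hof.const_mul ((ρ⁻¹ * V).trace)).const_add 1).add
    (hp1.mul (hof.pow 2))).const_mul ρ.det)
  refine h3.congr_deriv ?_
  simp

theorem det_isLittleO (ρ : Fn d) (hρ : IsUnit (of ρ).det) :
    (fun X : Fn d => (of X).det - (of ρ).det - (of ρ).det * ((of ρ)⁻¹ * (of X - of ρ)).trace)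
      =o[𝓝 ρ] fun X => X - ρ := by
  have hd := (det_differentiable ρ).hasFDerivAt
  obtain ⟨f', hf'⟩ : ∃ f', f' = fderiv ℝ (fun M : Fn d => (of M).det) ρ := ⟨_, rfl⟩
  rw [← hf'] at hd
  have hval : ∀ V : Fn d, f' V = (of ρ).det * ((of ρ)⁻¹ * of V).trace := by
    intro V
    have h1 := det_line (of ρ) (of V) hρ
    have h2 : HasDerivAt (fun t : ℝ => ρ + t • V) V 0 := by
      have h := (((hasDerivAt_id (0 : ℝ)).smul_const V).const_add ρ)
      refine h.congr_deriv ?_
      simp
    have h3 : HasFDerivAt (fun M : Fn d => (of M).det) f' (ρ + (0 : ℝ) • V) := by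
      simpa using hd
    have h4 := h3.comp_hasDerivAt (0 : ℝ) h2
    have h5 : (fun t : ℝ => (of ρ + (t : ℂ) • of V).det) =
        (fun M : Fn d => (of M).det) ∘ fun t : ℝ => ρ + t • V := by
      funext t
      simp only [Function.comp]
      congr 1
    rw [h5] at h1
    exact h4.unique h1
  have h5 := hd.isLittleO
  refine h5.congr_left fun X => ?_
  rw [hval]
  rfl

/-- the one sided derivative of the determinant along a path which is only Lipschitz -/
theorem det_path {X : ℝ → Mat d} {t : ℝ} (hdet : IsUnit (X t).det) {c : ℂ} {C : ℝ}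
    (hO : ∀ᶠ r in 𝓝[≥] t, ∀ i j, ‖X r i j - X t i j‖ ≤ C * ‖r - t‖)
    (hc : HasDerivWithinAt (fun r => ((X t)⁻¹ * (X r - X t)).trace) c (Ici t) t) :
    HasDerivWithinAt (fun r => (X r).det) ((X t).det * c) (Ici t) t := by
  have h1 := det_isLittleO (d := d) (fun i j => X t i j) hdet
  have hC : (fun r => (fun i j => X r i j : Fn d) - (fun i j => X t i j : Fn d))
      =O[𝓝[≥] t] fun r => r - t := by
    refine IsBigO.of_bound (max C 0) ?_
    filter_upwards [hO] with r hr
    rw [pi_norm_le_iff_of_nonneg (by positivity)]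
    intro i
    rw [pi_norm_le_iff_of_nonneg (by positivity)]
    intro j
    exact (hr i j).trans (mul_le_mul_of_nonneg_right (le_max_left _ _) (norm_nonneg _))
  have htend : Tendsto (fun r => (fun i j => X r i j : Fn d)) (𝓝[≥] t)
      (𝓝 (fun i j => X t i j : Fn d)) := by
    have h2 : Tendsto (fun r : ℝ => r - t) (𝓝[≥] t) (𝓝 0) := by
      have : Tendsto (fun r : ℝ => r - t) (𝓝 t) (𝓝 (t - t)) :=
        (continuous_id.sub continuous_const).tendsto t
      rw [sub_self] at this
      exact this.mono_left nhdsWithin_le_nhds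
    exact tendsto_sub_nhds_zero_iff.1 (hC.trans_tendsto h2)
  have h3 : (fun r => (X r).det - (X t).det - (X t).det * ((X t)⁻¹ * (X r - X t)).trace)
      =o[𝓝[≥] t] fun r => r - t := (h1.comp_tendsto htend).trans_isBigO hC
  have h4 := (hc.const_mul (X t).det).isLittleO
  rw [hasDerivWithinAt_iff_isLittleO]
  have h5 := h3.add h4
  refine h5.congr_left fun r => ?_
  simp only [sub_self, Matrix.mul_zero, Matrix.trace_zero, mul_zero, sub_zero]
  rw [Complex.real_smul]
  ring

/-- the derivative of the determinant along a solution does not depend on the drive -/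
theorem det_sol {H : ℝ → Mat d} (hH : IsDrive H) {L : Fin m → Mat d} {s : ℝ} (hs : 0 ≤ s)
    {X : ℝ → Mat d} (hX : Sol H L s X) {t : ℝ} (ht : s ≤ t) (hdet : IsUnit (X t).det) :
    HasDerivWithinAt (fun r => (X r).det) ((X t).det * ((X t)⁻¹ * DD L (X t)).trace)
      (Ici t) t := by
  have hXt := hX.restrict hH hs ht
  have ht0 : 0 ≤ t := hs.trans ht
  obtain ⟨K, hK0, hK⟩ := lind_bound L
  obtain ⟨C, hC0, hC⟩ := drive_bound hH (t + 1)
  obtain ⟨B, hB⟩ := (isCompact_Icc (a := t) (b := t + 1)).exists_bound_of_continuousOn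
    (continuous_nn.comp hX.cont).continuousOn
  refine det_path hdet (C := (2 * C + K) * B) ?_ ?_
  · -- Lipschitz bound
    have hnb : ∀ᶠ r in 𝓝[≥] t, r ∈ Icc t (t + 1) :=
      Icc_mem_nhdsGE (by linarith)
    filter_upwards [hnb] with r hr i j
    have h1 := hXt.eq r hr.1 i j
    have h2 : X r i j - X t i j = ∫ x in t..r, lind (H x) L (X x) i j := by rw [h1]; ring
    rw [h2]
    have h3 := intervalIntegral.norm_integral_le_of_norm_le_const (a := t) (b := r)
      (f := fun x => lind (H x) L (X x) i j) (C := (2 * C + K) * B) (fun x hx => by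
        rw [uIoc_of_le hr.1] at hx
        refine (entry_le _ i j).trans ((hK _ _).trans ?_)
        have e1 := hC x ⟨by linarith [hx.1], hx.2.trans hr.2⟩
        have e2 := hB x ⟨hx.1.le, hx.2.trans hr.2⟩
        simp only [Function.comp, Real.norm_eq_abs, abs_of_nonneg (nn_nonneg _)] at e2
        have := nn_nonneg (H x)
        exact mul_le_mul (by linarith) e2 (nn_nonneg _) (by linarith))
    rw [Real.norm_eq_abs]
    exact h3
  · -- the trace
    obtain ⟨A, hA⟩ : ∃ A, A = (X t)⁻¹ := ⟨_, rfl⟩
    rw [← hA]
    have hAX : A * X t = 1 := by rw [hA]; exact Matrix.nonsing_inv_mul _ hdet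
    have hXA : X t * A = 1 := by rw [hA]; exact Matrix.mul_nonsing_inv _ hdet
    obtain ⟨h, hh⟩ : ∃ h : ℝ → ℂ, ∀ r, h r = (A * lind (H r) L (X r)).trace := ⟨_, fun _ => rfl⟩
    have hform : ∀ r, h r = ∑ i, ∑ k, A i k * lind (H r) L (X r) k i := by
      intro r
      rw [hh]
      simp only [Matrix.trace, Matrix.diag_apply, Matrix.mul_apply]
    have htr : ∀ r, t ≤ r → (A * (X r - X t)).trace = ∫ x in t..r, h x := by
      intro r hr
      simp only [hform]
      rw [intervalIntegral.integral_finsetSum]
      · simp only [Matrix.trace, Matrix.diag_apply, Matrix.mul_apply]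
        refine Finset.sum_congr rfl fun i _ => ?_
        rw [intervalIntegral.integral_finsetSum]
        · refine Finset.sum_congr rfl fun k _ => ?_
          rw [intervalIntegral.integral_const_mul, Matrix.sub_apply, hXt.eq r hr k i]
          ring
        · intro k _
          exact (lind_integrable hH L hX.cont k i ht0 (ht0.trans hr)).const_mul _
      · intro i _
        have h1 := IntervalIntegrable.sum (μ := volume) (a := t) (b := r) Finset.univ
          (f := fun k x => A i k * lind (H x) L (X x) k i) fun k _ =>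
          (lind_integrable hH L hX.cont k i ht0 (ht0.trans hr)).const_mul _
        have h2 : (∑ k, fun x => A i k * lind (H x) L (X x) k i) =
            fun x => ∑ k, A i k * lind (H x) L (X x) k i := by
          funext x
          rw [Finset.sum_apply]
        rwa [h2] at h1
    -- the commutator part tends to zero
    have hsplit : ∀ r, h r = (A * DD L (X r)).trace +
        (-Complex.I) * (A * (H r * (X r - X t) - (X r - X t) * H r)).trace := by
      intro r
      rw [hh]
      unfold lind DD
      rw [Matrix.mul_add, Matrix.trace_add, Matrix.mul_smul, Matrix.trace_smul, smul_eq_mul,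
        add_comm]
      congr 2
      have e1 : (A * (H r * X t - X t * H r)).trace = 0 := by
        rw [Matrix.mul_sub, Matrix.trace_sub, ← Matrix.mul_assoc, ← Matrix.mul_assoc, hAX,
          Matrix.one_mul, Matrix.trace_mul_comm (A * H r) (X t), ← Matrix.mul_assoc, hXA,
          Matrix.one_mul, sub_self]
      have e2 : H r * (X r - X t) - (X r - X t) * H r =
          (H r * X r - X r * H r) - (H r * X t - X t * H r) := by
        rw [Matrix.mul_sub, Matrix.sub_mul]
        abel
      rw [e2, Matrix.mul_sub A (H r * X r - X r * H r), Matrix.trace_sub, e1, sub_zero]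
    have hval : h t = (A * DD L (X t)).trace := by
      rw [hsplit t]
      simp
    have hDDc : Continuous fun r => (A * DD L (X r)).trace := by
      have h1 : Continuous fun r => DD L (X r) := by
        unfold DD
        exact continuous_finsetSum _ fun k _ => (continuous_diss (L k)).comp hX.cont
      exact (continuous_const.matrix_mul h1).matrix_trace
    have hmeas : Measurable h := by
      have : h = fun r => ∑ i, ∑ k, A i k * lind (H r) L (X r) k i := funext hform
      rw [this]
      exact Finset.measurable_sum _ fun i _ => Finset.measurable_sum _ fun k _ =>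
        (lind_meas hH L hX.cont k i).const_mul _
    have htrace_le : ∀ M : Mat d, ‖M.trace‖ ≤ nn M := by
      intro M
      unfold Matrix.trace nn
      refine (norm_sum_le _ _).trans (Finset.sum_le_sum fun i _ => ?_)
      exact Finset.single_le_sum (f := fun b => ‖M i b‖) (fun b _ => norm_nonneg _)
        (Finset.mem_univ i)
    have hcont : ContinuousWithinAt h (Ici t) t := by
      have h1 : Tendsto (fun r => (-Complex.I) *
          (A * (H r * (X r - X t) - (X r - X t) * H r)).trace) (𝓝[≥] t) (𝓝 0) := by
        have h2 : Tendsto (fun r => nn A * (2 * C * nn (X r - X t))) (𝓝[≥] t) (𝓝 0) := by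
          have h3 : Continuous fun r => nn A * (2 * C * nn (X r - X t)) :=
            continuous_const.mul (continuous_const.mul
              (continuous_nn.comp (hX.cont.sub continuous_const)))
          have h4 := h3.tendsto t
          have h5 : nn A * (2 * C * nn (X t - X t)) = 0 := by
            rw [sub_self]
            unfold nn
            simp
          rw [h5] at h4
          exact h4.mono_left nhdsWithin_le_nhds
        refine squeeze_zero_norm' ?_ h2
        have hnb : ∀ᶠ r in 𝓝[≥] t, r ∈ Icc t (t + 1) := Icc_mem_nhdsGE (by linarith)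
        filter_upwards [hnb] with r hr
        rw [norm_mul, norm_neg, Complex.norm_I, one_mul]
        refine (htrace_le _).trans ((nn_mul _ _).trans ?_)
        refine mul_le_mul_of_nonneg_left ?_ (nn_nonneg _)
        refine (nn_sub _ _).trans ?_
        have e1 := nn_mul (H r) (X r - X t)
        have e2 := nn_mul (X r - X t) (H r)
        have e3 := hC r ⟨by linarith [hr.1], hr.2⟩
        have e4 := nn_nonneg (X r - X t)
        have e5 := mul_le_mul_of_nonneg_right e3 e4
        linarith
      have h6 : Tendsto (fun r => (A * DD L (X r)).trace) (𝓝[≥] t) (𝓝 (A * DD L (X t)).trace) :=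
        (hDDc.tendsto t).mono_left nhdsWithin_le_nhds
      have h7 := h6.add h1
      rw [add_zero] at h7
      unfold ContinuousWithinAt
      rw [hval]
      exact h7.congr fun r => (hsplit r).symm
    have hderiv : HasDerivWithinAt (fun u => ∫ x in t..u, h x) (h t) (Ici t) t :=
      intervalIntegral.integral_hasDerivWithinAt_right IntervalIntegrable.refl
        (hmeas.stronglyMeasurable.stronglyMeasurableAtFilter) (hcont.mono Ioi_subset_Ici_self)
    rw [hval] at hderiv
    exact hderiv.congr (fun r hr => htr r hr) (htr t le_rfl)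

end Pool.Agent.V11261.LB
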