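import Mathlib
import Pool.Agent.V11261.LB.Basic

/-!
# The lower bound for `∑_j tr (ρ⁻¹ L_j ρ L_j†)`
-/

set_option autoImplicit false

noncomputable section

namespace Pool.Agent.V11261.LB

open Matrix Set
open scoped ComplexOrder

variable {d m : ℕ}

/-- the weight of the block `(Sᶜ, S)` of the matrices `U† L_j U` -/
def blk (L : Fin m → Mat d) (U : Mat d) (S : Finset (Fin d)) : ℝ :=
  ∑ i ∈ Sᶜ, ∑ k ∈ S, ∑ j, ‖(Uᴴ * L j * U) i k‖ ^ 2

theorem blk_nonneg (L : Fin m → Mat d) (U : Mat d) (S : Finset (Fin d)) : 0 ≤ blk L U S :=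
  Finset.sum_nonneg fun _ _ => Finset.sum_nonneg fun _ _ => Finset.sum_nonneg fun _ _ => by
    positivity

theorem blk_cont (L : Fin m → Mat d) (S : Finset (Fin d)) : Continuous fun U => blk L U S := by
  unfold blk
  refine continuous_finsetSum _ fun i _ => continuous_finsetSum _ fun k _ =>
    continuous_finsetSum _ fun j _ => ?_
  refine Continuous.pow (Continuous.norm ?_) 2
  refine Continuous.matrix_elem ?_ i k
  exact ((continuous_id.matrix_conjTranspose).matrix_mul continuous_const).matrix_mul continuous_id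

/-- the block is not zero if the `L_j` generate -/
theorem blk_pos {L : Fin m → Mat d} (hL : Algebra.adjoin ℂ (Set.range L) = ⊤) {U : Mat d}
    (hU : Uᴴ * U = 1) {S : Finset (Fin d)} (hS : S.Nonempty) (hS' : S ≠ Finset.univ) :
    0 < blk L U S := by
  refine lt_of_le_of_ne (blk_nonneg L U S) fun h0 => ?_
  have hU' : U * Uᴴ = 1 := mul_eq_one_comm.1 hU
  have hz : ∀ j, ∀ i ∉ S, ∀ k ∈ S, (Uᴴ * L j * U) i k = 0 := by
    intro j i hi k hk
    have h1 := (Finset.sum_eq_zero_iff_of_nonneg fun i _ => Finset.sum_nonneg fun k _ =>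
      Finset.sum_nonneg fun j _ => by positivity).1 h0.symm i (Finset.mem_compl.2 hi)
    have h2 := (Finset.sum_eq_zero_iff_of_nonneg fun k _ =>
      Finset.sum_nonneg fun j _ => by positivity).1 h1 k hk
    have h3 := (Finset.sum_eq_zero_iff_of_nonneg fun j _ => by positivity).1 h2 j
      (Finset.mem_univ j)
    exact norm_eq_zero.1 (pow_eq_zero_iff (two_ne_zero)|>.1 h3)
  let A : Subalgebra ℂ (Mat d) :=
    { carrier := {M | ∀ i ∉ S, ∀ k ∈ S, (Uᴴ * M * U) i k = 0}
      mul_mem' := by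
        intro M N hM hN i hi k hk
        have e : Uᴴ * (M * N) * U = (Uᴴ * M * U) * (Uᴴ * N * U) := by
          calc Uᴴ * (M * N) * U = Uᴴ * M * 1 * N * U := by
                simp only [Matrix.mul_assoc, Matrix.mul_one, Matrix.one_mul]
            _ = Uᴴ * M * (U * Uᴴ) * N * U := by rw [hU']
            _ = (Uᴴ * M * U) * (Uᴴ * N * U) := by simp only [Matrix.mul_assoc]
        rw [e, Matrix.mul_apply]
        refine Finset.sum_eq_zero fun l _ => ?_
        by_cases hl : l ∈ S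
        · rw [hM i hi l hl, zero_mul]
        · rw [hN l hl k hk, mul_zero]
      add_mem' := by
        intro M N hM hN i hi k hk
        rw [Matrix.mul_add, Matrix.add_mul, Matrix.add_apply, hM i hi k hk, hN i hi k hk, add_zero]
      algebraMap_mem' := by
        intro c i hi k hk
        have hik : i ≠ k := fun h => hi (h ▸ hk)
        rw [Algebra.algebraMap_eq_smul_one, Matrix.mul_smul, Matrix.mul_one, Matrix.smul_mul, hU,
          Matrix.smul_apply, Matrix.one_apply_ne hik, smul_zero] }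
  have hle : Algebra.adjoin ℂ (Set.range L) ≤ A := by
    refine Algebra.adjoin_le ?_
    rintro _ ⟨j, rfl⟩
    exact fun i hi k hk => hz j i hi k hk
  rw [hL, top_le_iff] at hle
  obtain ⟨k, hk⟩ := hS
  obtain ⟨i, hi⟩ : ∃ i, i ∉ S := by
    by_contra hcon
    push Not at hcon
    exact hS' (Finset.eq_univ_iff_forall.2 hcon)
  have hmem : U * Matrix.single i k (1 : ℂ) * Uᴴ ∈ A := by rw [hle]; exact Algebra.mem_top
  have h1 := hmem i hi k hk
  have e : Uᴴ * (U * Matrix.single i k (1 : ℂ) * Uᴴ) * U = Matrix.single i k (1 : ℂ) := by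
    calc Uᴴ * (U * Matrix.single i k (1 : ℂ) * Uᴴ) * U
        = (Uᴴ * U) * Matrix.single i k (1 : ℂ) * (Uᴴ * U) := by simp only [Matrix.mul_assoc]
      _ = Matrix.single i k (1 : ℂ) := by rw [hU, Matrix.one_mul, Matrix.mul_one]
  rw [e, Matrix.single_apply_same] at h1
  exact one_ne_zero h1

theorem unitary_compact : IsCompact {U : Mat d | Uᴴ * U = 1} := by
  have hK : IsCompact (Set.pi Set.univ fun _ : Fin d => Set.pi Set.univ fun _ : Fin d =>
      Metric.closedBall (0 : ℂ) 1) :=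
    isCompact_univ_pi fun _ => isCompact_univ_pi fun _ => isCompact_closedBall _ _
  have hcl : IsClosed {U : Mat d | Uᴴ * U = 1} :=
    isClosed_eq ((continuous_id.matrix_conjTranspose).matrix_mul continuous_id) continuous_const
  refine IsCompact.of_isClosed_subset (X := Mat d) hK hcl ?_
  intro U hU i _ j _
  rw [mem_closedBall_zero_iff]
  have hmem : U ∈ Matrix.unitaryGroup (Fin d) ℂ := by
    rw [Matrix.mem_unitaryGroup_iff']
    exact hU
  exact entry_norm_bound_of_unitary hmem i j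

theorem exists_c0 {L : Fin m → Mat d} (hL : Algebra.adjoin ℂ (Set.range L) = ⊤) :
    ∃ c0 : ℝ, 0 < c0 ∧ ∀ U : Mat d, Uᴴ * U = 1 → ∀ S : Finset (Fin d), S.Nonempty →
      S ≠ Finset.univ → c0 ≤ blk L U S := by
  classical
  have hex : ∀ S : Finset (Fin d), ∃ c : ℝ, 0 < c ∧ (S.Nonempty → S ≠ Finset.univ →
      ∀ U : Mat d, Uᴴ * U = 1 → c ≤ blk L U S) := by
    intro S
    by_cases hS : S.Nonempty ∧ S ≠ Finset.univ
    · obtain ⟨U0, hU0, hmin⟩ := unitary_compact.exists_isMinOn (α := ℝ) (f := fun U => blk L U S)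
        ⟨1, by simp⟩ (blk_cont L S).continuousOn
      exact ⟨blk L U0 S, blk_pos hL hU0 hS.1 hS.2, fun _ _ U hU => hmin hU⟩
    · refine ⟨1, one_pos, fun h1 h2 => absurd ⟨h1, h2⟩ hS⟩
  choose c hc hc' using hex
  obtain ⟨S0, hS0⟩ := Finite.exists_min c
  exact ⟨c S0, hc S0, fun U hU S h1 h2 => (hS0 S).trans (hc' S h1 h2 U hU)⟩

/-- the combinatorial inequality -/
theorem comb (hd : 2 ≤ d) (a : Fin d → Fin d → ℝ) (ha : ∀ i k, 0 ≤ a i k) (lam : Fin d → ℝ)
    (hl : ∀ i, 0 < lam i) (hsum : ∑ i, lam i = 1) {c0 : ℝ} (hc0 : 0 < c0)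
    (hc : ∀ S : Finset (Fin d), S.Nonempty → S ≠ Finset.univ → c0 ≤ ∑ i ∈ Sᶜ, ∑ k ∈ S, a i k) :
    c0 / d ^ 3 ≤ (∑ i, ∑ k, a i k * (lam k / lam i)) *
      (∏ i, lam i) ^ (((d * (d - 1) : ℕ) : ℝ)⁻¹) := by
  classical
  have hd0 : (0 : ℝ) < d := by
    have : 0 < d := by omega
    exact_mod_cast this
  obtain ⟨Λ, hΛ⟩ : ∃ Λ, Λ = ∑ i, ∑ k, a i k * (lam k / lam i) := ⟨_, rfl⟩
  rw [← hΛ]
  have hterm : ∀ i k, a i k * (lam k / lam i) ≤ Λ := by
    intro i k
    have hnn : ∀ i k, 0 ≤ a i k * (lam k / lam i) := fun i k => by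
      have := ha i k
      have := (hl i).le
      have := (hl k).le
      positivity
    rw [hΛ]
    refine le_trans ?_ (Finset.single_le_sum (f := fun i => ∑ k, a i k * (lam k / lam i))
      (fun i _ => Finset.sum_nonneg fun k _ => hnn i k) (Finset.mem_univ i))
    exact Finset.single_le_sum (f := fun k => a i k * (lam k / lam i)) (fun k _ => hnn i k)
      (Finset.mem_univ k)
  -- a large entry in every block
  have hpair : ∀ S : Finset (Fin d), S.Nonempty → S ≠ Finset.univ →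
      ∃ i ∉ S, ∃ k ∈ S, c0 / d ^ 2 ≤ a i k := by
    intro S h1 h2
    by_contra hcon
    push Not at hcon
    have hne : (Sᶜ).Nonempty := by
      rw [Finset.nonempty_iff_ne_empty]
      intro h
      exact h2 ((Finset.compl_eq_empty_iff S).1 h)
    have h3 : ∑ i ∈ Sᶜ, ∑ k ∈ S, a i k < ∑ i ∈ Sᶜ, ∑ k ∈ S, c0 / d ^ 2 :=
      Finset.sum_lt_sum_of_nonempty hne fun i hi =>
        Finset.sum_lt_sum_of_nonempty h1 fun k hk => hcon i (Finset.mem_compl.1 hi) k hk
    have h4 : ∑ i ∈ Sᶜ, ∑ k ∈ S, c0 / (d : ℝ) ^ 2 ≤ c0 := by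
      simp only [Finset.sum_const, nsmul_eq_mul]
      have e1 : ((Sᶜ).card : ℝ) ≤ d := by
        have := Finset.card_le_univ Sᶜ
        rw [Fintype.card_fin] at this
        exact_mod_cast this
      have e2 : (S.card : ℝ) ≤ d := by
        have := Finset.card_le_univ S
        rw [Fintype.card_fin] at this
        exact_mod_cast this
      have e3 : ((Sᶜ).card : ℝ) * (S.card * (c0 / d ^ 2)) ≤ d * (d * (c0 / d ^ 2)) := by
        gcongr
      refine e3.trans (le_of_eq ?_)
      field_simp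
    linarith [hc S h1 h2]
  obtain ⟨R, hR⟩ : ∃ R, R = d ^ 2 * Λ / c0 := ⟨_, rfl⟩
  have hstep : ∀ i k, c0 / d ^ 2 ≤ a i k → lam k ≤ R * lam i := by
    intro i k hik
    have h1 := hterm i k
    have h2 : c0 / d ^ 2 * (lam k / lam i) ≤ Λ :=
      (mul_le_mul_of_nonneg_right hik (div_nonneg (hl k).le (hl i).le)).trans h1
    rw [hR]
    have hli := hl i
    have h3 : c0 / d ^ 2 * (lam k / lam i) * (d ^ 2 * lam i) ≤ Λ * (d ^ 2 * lam i) :=
      mul_le_mul_of_nonneg_right h2 (by positivity)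
    have h4 : c0 / d ^ 2 * (lam k / lam i) * (d ^ 2 * lam i) = c0 * lam k := by
      field_simp
    rw [h4] at h3
    rw [div_mul_eq_mul_div, le_div_iff₀ hc0]
    linarith
  have : Nonempty (Fin d) := ⟨⟨0, by omega⟩⟩
  obtain ⟨k0, hk0⟩ := Finite.exists_max lam
  have hR1 : 1 ≤ R := by
    obtain ⟨i, -, k, hk, hik⟩ := hpair {k0} (Finset.singleton_nonempty _) (by
      intro h
      have := congrArg Finset.card h
      rw [Finset.card_singleton, Finset.card_univ, Fintype.card_fin] at this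
      omega)
    rw [Finset.mem_singleton] at hk
    subst hk
    have h1 := hstep i k hik
    have h2 := hk0 i
    have h3 := hl k
    have h4 := hl i
    by_contra hlt
    rw [not_le] at hlt
    nlinarith
  have hcard : ∀ n : ℕ, n < d →
      n + 1 ≤ (Finset.univ.filter fun l => lam k0 ≤ R ^ n * lam l).card := by
    intro n
    induction n with
    | zero =>
      intro _
      refine Finset.card_pos.2 ⟨k0, ?_⟩
      rw [Finset.mem_filter]
      exact ⟨Finset.mem_univ _, by simp⟩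
    | succ n ih =>
      intro hn
      have h1 := ih (by omega)
      by_cases hall : (Finset.univ.filter fun l => lam k0 ≤ R ^ n * lam l) = Finset.univ
      · have h2 : (Finset.univ.filter fun l => lam k0 ≤ R ^ (n + 1) * lam l) = Finset.univ := by
          rw [Finset.filter_eq_self] at hall ⊢
          intro l hlm
          refine (hall l hlm).trans ?_
          exact mul_le_mul_of_nonneg_right (pow_le_pow_right₀ hR1 (Nat.le_succ n)) (hl l).le
        rw [h2, Finset.card_univ, Fintype.card_fin]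
        omega
      · obtain ⟨i, hi, k, hk, hik⟩ := hpair _ (Finset.card_pos.1 (by omega)) hall
        have h2 := hstep i k hik
        rw [Finset.mem_filter] at hk
        have h3 : (insert i (Finset.univ.filter fun l => lam k0 ≤ R ^ n * lam l)) ⊆
            Finset.univ.filter fun l => lam k0 ≤ R ^ (n + 1) * lam l := by
          intro l hlm
          rw [Finset.mem_insert] at hlm
          rw [Finset.mem_filter]
          refine ⟨Finset.mem_univ _, ?_⟩
          rcases hlm with rfl | hlm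
          · refine hk.2.trans ?_
            have : R ^ (n + 1) * lam l = R ^ n * (R * lam l) := by ring
            rw [this]
            exact mul_le_mul_of_nonneg_left h2 (by positivity)
          · rw [Finset.mem_filter] at hlm
            refine hlm.2.trans ?_
            exact mul_le_mul_of_nonneg_right (pow_le_pow_right₀ hR1 (Nat.le_succ n)) (hl l).le
        have h4 := Finset.card_le_card h3
        rw [Finset.card_insert_of_notMem hi] at h4
        omega
  have hall : ∀ l, lam k0 ≤ R ^ (d - 1) * lam l := by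
    intro l
    have h1 := hcard (d - 1) (by omega)
    have h2 : (Finset.univ.filter fun l => lam k0 ≤ R ^ (d - 1) * lam l) = Finset.univ := by
      refine Finset.eq_univ_of_card _ ?_
      have := Finset.card_le_univ (Finset.univ.filter fun l => lam k0 ≤ R ^ (d - 1) * lam l)
      rw [Fintype.card_fin] at this ⊢
      omega
    have h3 : l ∈ (Finset.univ.filter fun l => lam k0 ≤ R ^ (d - 1) * lam l) := by
      rw [h2]; exact Finset.mem_univ l
    exact (Finset.mem_filter.1 h3).2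
  have hmax : 1 / (d : ℝ) ≤ lam k0 := by
    rw [div_le_iff₀ hd0, ← hsum]
    calc ∑ i, lam i ≤ ∑ _i : Fin d, lam k0 := Finset.sum_le_sum fun i _ => hk0 i
      _ = lam k0 * d := by simp [mul_comm]
  have hR0 : 0 < R := by linarith
  have hlow : ∀ l, 1 / (d * R ^ (d - 1)) ≤ lam l := by
    intro l
    rw [div_le_iff₀ (by positivity)]
    have h1 := hall l
    have h2 : 1 ≤ lam k0 * d := by
      rw [div_le_iff₀ hd0] at hmax
      exact hmax
    nlinarith
  have hprod : (1 / (d * R)) ^ (d * (d - 1)) ≤ ∏ i, lam i := by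
    have h1 : (1 / ((d : ℝ) * R ^ (d - 1))) ^ d ≤ ∏ i, lam i := by
      calc (1 / ((d : ℝ) * R ^ (d - 1))) ^ d = ∏ _i : Fin d, (1 / ((d : ℝ) * R ^ (d - 1))) := by
            simp
        _ ≤ ∏ i, lam i := Finset.prod_le_prod (fun i _ => by positivity) fun i _ => hlow i
    refine le_trans ?_ h1
    rw [mul_comm d (d - 1), pow_mul]
    refine pow_le_pow_left₀ (by positivity) ?_ d
    rw [_root_.one_div_pow]
    refine one_div_le_one_div_of_le (by positivity) ?_
    rw [mul_pow]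
    refine mul_le_mul_of_nonneg_right ?_ (by positivity)
    have hd1 : (1 : ℝ) ≤ d := by
      have : 1 ≤ d := by omega
      exact_mod_cast this
    calc (d : ℝ) = d ^ 1 := (pow_one _).symm
      _ ≤ d ^ (d - 1) := pow_le_pow_right₀ hd1 (by omega)
  have hN : d * (d - 1) ≠ 0 := by
    have : 0 < d - 1 := by omega
    positivity
  have hroot : 1 / (d * R) ≤ (∏ i, lam i) ^ (((d * (d - 1) : ℕ) : ℝ)⁻¹) := by
    have h1 : (0 : ℝ) ≤ 1 / (d * R) := by positivity
    rw [← Real.pow_rpow_inv_natCast h1 hN]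
    exact Real.rpow_le_rpow (by positivity) hprod (by positivity)
  have hΛ0 : 0 < Λ := by
    have h1 : 0 < d ^ 2 * Λ / c0 := by rw [← hR]; exact hR0
    by_contra hle
    rw [not_lt] at hle
    have : (d : ℝ) ^ 2 * Λ / c0 ≤ 0 := by
      refine div_nonpos_of_nonpos_of_nonneg ?_ hc0.le
      exact mul_nonpos_of_nonneg_of_nonpos (by positivity) hle
    linarith
  have hfin : c0 / d ^ 3 = Λ * (1 / (d * R)) := by
    rw [hR]
    field_simp
  rw [hfin]
  exact mul_le_mul_of_nonneg_left hroot hΛ0.le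

/-- `∑_j tr (ρ⁻¹ L_j ρ L_j†)` -/
def Psi (L : Fin m → Mat d) (ρ : Mat d) : ℝ := ∑ j, ((ρ⁻¹ * L j * ρ * (L j)ᴴ).trace).re

/-- the sum in terms of a spectral decomposition -/
theorem Psi_spec {ρ U : Mat d} {lam : Fin d → ℝ} (hU : Uᴴ * U = 1) (hpos : ∀ i, 0 < lam i)
    (hsp : ρ = U * diagonal (fun i => (lam i : ℂ)) * Uᴴ) (L : Fin m → Mat d) :
    Psi L ρ = ∑ i, ∑ k, (∑ j, ‖(Uᴴ * L j * U) i k‖ ^ 2) * (lam k / lam i) := by
  have hU' : U * Uᴴ = 1 := mul_eq_one_comm.1 hU
  have hinv : ρ⁻¹ = U * diagonal (fun i => ((lam i : ℂ))⁻¹) * Uᴴ := by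
    refine Matrix.inv_eq_right_inv ?_
    rw [hsp]
    have e : U * diagonal (fun i => (lam i : ℂ)) * Uᴴ *
        (U * diagonal (fun i => ((lam i : ℂ))⁻¹) * Uᴴ) =
        U * (diagonal (fun i => (lam i : ℂ)) * (Uᴴ * U) *
          diagonal (fun i => ((lam i : ℂ))⁻¹)) * Uᴴ := by
      simp only [Matrix.mul_assoc]
    rw [e, hU, Matrix.mul_one, Matrix.diagonal_mul_diagonal]
    have e2 : (fun i => (lam i : ℂ) * ((lam i : ℂ))⁻¹) = fun _ => 1 := by
      funext i
      refine mul_inv_cancel₀ ?_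
      exact_mod_cast (hpos i).ne'
    rw [e2, Matrix.diagonal_one, Matrix.mul_one, hU']
  have hterm : ∀ j, ((ρ⁻¹ * L j * ρ * (L j)ᴴ).trace).re =
      ∑ i, ∑ k, ‖(Uᴴ * L j * U) i k‖ ^ 2 * (lam k / lam i) := by
    intro j
    obtain ⟨M, hM⟩ : ∃ M, M = Uᴴ * L j * U := ⟨_, rfl⟩
    have e1 : (ρ⁻¹ * L j * ρ * (L j)ᴴ).trace =
        (diagonal (fun i => ((lam i : ℂ))⁻¹) * M *
          diagonal (fun i => (lam i : ℂ)) * Mᴴ).trace := by
      rw [hinv, hsp]
      have e2 : U * diagonal (fun i => ((lam i : ℂ))⁻¹) * Uᴴ * L j *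
          (U * diagonal (fun i => (lam i : ℂ)) * Uᴴ) * (L j)ᴴ =
          U * (diagonal (fun i => ((lam i : ℂ))⁻¹) * (Uᴴ * L j * U) *
            diagonal (fun i => (lam i : ℂ)) * (Uᴴ * (L j)ᴴ)) := by
        simp only [Matrix.mul_assoc]
      rw [e2, Matrix.trace_mul_comm, hM]
      congr 1
      simp only [Matrix.conjTranspose_mul, Matrix.conjTranspose_conjTranspose, Matrix.mul_assoc]
    rw [e1, ← hM]
    simp only [Matrix.trace, Matrix.diag_apply]
    rw [Complex.re_sum]
    refine Finset.sum_congr rfl fun i _ => ?_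
    rw [Matrix.mul_apply, Complex.re_sum]
    refine Finset.sum_congr rfl fun k _ => ?_
    rw [Matrix.mul_diagonal, Matrix.diagonal_mul, Matrix.conjTranspose_apply]
    have e3 : ((lam i : ℂ))⁻¹ * M i k * (lam k : ℂ) * star (M i k) =
        ((‖M i k‖ ^ 2 * (lam k / lam i) : ℝ) : ℂ) := by
      have e4 : M i k * star (M i k) = ((‖M i k‖ ^ 2 : ℝ) : ℂ) := by
        rw [Complex.star_def, Complex.mul_conj, Complex.normSq_eq_norm_sq]
      calc ((lam i : ℂ))⁻¹ * M i k * (lam k : ℂ) * star (M i k)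
          = (M i k * star (M i k)) * ((lam k : ℂ) / lam i) := by
            rw [div_eq_mul_inv]; ring
        _ = _ := by rw [e4]; push_cast; ring
    rw [e3, Complex.ofReal_re]
  unfold Psi
  simp only [hterm, Finset.sum_mul]
  rw [Finset.sum_comm]
  refine Finset.sum_congr rfl fun i _ => ?_
  rw [Finset.sum_comm]

/-- the sum in terms of the eigenvalues -/
theorem Psi_eq {ρ : Mat d} (hρ : ρ.PosDef) :
    ∃ (U : Mat d) (lam : Fin d → ℝ), Uᴴ * U = 1 ∧ (∀ i, 0 < lam i) ∧
      ρ.det = ((∏ i, lam i : ℝ) : ℂ) ∧ ρ.trace = ((∑ i, lam i : ℝ) : ℂ) ∧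
      ρ = U * diagonal (fun i => (lam i : ℂ)) * Uᴴ := by
  obtain ⟨hH⟩ : Nonempty ρ.IsHermitian := ⟨hρ.isHermitian⟩
  have hU' : (hH.eigenvectorUnitary : Mat d) * (hH.eigenvectorUnitary : Mat d)ᴴ = 1 :=
    (Matrix.mem_unitaryGroup_iff).1 hH.eigenvectorUnitary.2
  refine ⟨(hH.eigenvectorUnitary : Mat d), hH.eigenvalues, mul_eq_one_comm.1 hU',
    hρ.eigenvalues_pos, ?_, ?_, ?_⟩
  · rw [hH.det_eq_prod_eigenvalues]
    push_cast
    rfl
  · rw [hH.trace_eq_sum_eigenvalues]
    push_cast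
    rfl
  · have := hH.spectral_theorem
    rw [Unitary.conjStarAlgAut_apply] at this
    exact this

/-- the key lower bound -/
theorem Psi_lower (hd : 2 ≤ d) {L : Fin m → Mat d} (hL : Algebra.adjoin ℂ (Set.range L) = ⊤) :
    ∃ c1 : ℝ, 0 < c1 ∧ ∀ ρ : Mat d, ρ.PosDef → ρ.trace = 1 →
      c1 ≤ Psi L ρ * (ρ.det.re) ^ (((d * (d - 1) : ℕ) : ℝ)⁻¹) := by
  obtain ⟨c0, hc0, hc⟩ := exists_c0 hL
  have hd0 : (0 : ℝ) < d := by
    have : 0 < d := by omega
    exact_mod_cast this
  refine ⟨c0 / d ^ 3, by positivity, fun ρ hρ htr => ?_⟩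
  obtain ⟨U, lam, hU, hlam, hdet, htrace, hsp⟩ := Psi_eq hρ
  have hPsi := Psi_spec hU hlam hsp L
  have hsum : ∑ i, lam i = 1 := by
    rw [htr] at htrace
    exact_mod_cast htrace.symm
  rw [hPsi, hdet, Complex.ofReal_re]
  refine comb hd _ (fun i k => Finset.sum_nonneg fun j _ => by positivity) lam hlam hsum hc0 ?_
  intro S h1 h2
  exact hc U hU S h1 h2

theorem Psi_nonneg {ρ : Mat d} (hρ : ρ.PosDef) (L : Fin m → Mat d) : 0 ≤ Psi L ρ := by
  obtain ⟨U, lam, hU, hlam, hdet, htrace, hsp⟩ := Psi_eq hρ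
  rw [Psi_spec hU hlam hsp L]
  refine Finset.sum_nonneg fun i _ => Finset.sum_nonneg fun k _ => ?_
  have := (hlam i).le
  have := (hlam k).le
  have : 0 ≤ ∑ j, ‖(Uᴴ * L j * U) i k‖ ^ 2 := Finset.sum_nonneg fun j _ => by positivity
  positivity

end Pool.Agent.V11261.LB
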