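import Mathlib
import Pool.Agent.V11261.LB.Deriv
import Pool.Agent.V11261.LB.Spec

/-!
# Positivity and the lower bound of the determinant
-/

set_option autoImplicit false

noncomputable section

namespace Pool.Agent.V11261.LB

open Matrix MeasureTheory Set Filter Topology
open scoped ComplexOrder

variable {d m : ℕ}

/-- `tr ∑_j L_j† L_j` -/
def gg (L : Fin m → Mat d) : ℝ := (∑ j, (L j)ᴴ * L j).trace.re

theorem gg_nonneg (L : Fin m → Mat d) : 0 ≤ gg L := by
  unfold gg
  have h : (∑ j, (L j)ᴴ * L j).PosSemidef :=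
    Matrix.posSemidef_sum _ fun j _ => Matrix.posSemidef_conjTranspose_mul_self _
  exact (Complex.le_def.1 h.trace_nonneg).1

theorem trace_inv_DD {ρ : Mat d} (hρ : IsUnit ρ.det) (L : Fin m → Mat d) :
    ((ρ⁻¹ * DD L ρ).trace).re = Psi L ρ - gg L := by
  have h1 : ∀ j, (ρ⁻¹ * diss (L j) ρ).trace =
      (ρ⁻¹ * L j * ρ * (L j)ᴴ).trace - ((L j)ᴴ * L j).trace := by
    intro j
    unfold diss
    rw [Matrix.mul_sub, Matrix.mul_smul, Matrix.mul_add, Matrix.trace_sub, Matrix.trace_smul,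
      Matrix.trace_add]
    have e1 : (ρ⁻¹ * ((L j)ᴴ * L j * ρ)).trace = ((L j)ᴴ * L j).trace := by
      rw [Matrix.trace_mul_comm, Matrix.mul_assoc, Matrix.mul_nonsing_inv _ hρ, Matrix.mul_one]
    have e2 : (ρ⁻¹ * (ρ * ((L j)ᴴ * L j))).trace = ((L j)ᴴ * L j).trace := by
      rw [← Matrix.mul_assoc, Matrix.nonsing_inv_mul _ hρ, Matrix.one_mul]
    have e3 : ρ⁻¹ * (L j * ρ * (L j)ᴴ) = ρ⁻¹ * L j * ρ * (L j)ᴴ := by
      simp only [Matrix.mul_assoc]
    rw [e1, e2, smul_eq_mul, e3]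
    ring
  unfold DD Psi gg
  rw [Matrix.mul_sum, Matrix.trace_sum, Matrix.trace_sum, Complex.re_sum, Complex.re_sum,
    ← Finset.sum_sub_distrib]
  refine Finset.sum_congr rfl fun j _ => ?_
  rw [h1, Complex.sub_re]

theorem det_real {ρ : Mat d} (hρ : ρ.PosDef) : 0 < ρ.det.re ∧ ρ.det.im = 0 := by
  obtain ⟨U, lam, hU, hlam, hdet, -, -⟩ := Psi_eq hρ
  rw [hdet]
  exact ⟨by rw [Complex.ofReal_re]; exact Finset.prod_pos fun i _ => hlam i,
    Complex.ofReal_im _⟩

theorem y_deriv {H : ℝ → Mat d} (hH : IsDrive H) {L : Fin m → Mat d} {s : ℝ} (hs : 0 ≤ s)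
    {X : ℝ → Mat d} (hX : Sol H L s X) {t : ℝ} (ht : s ≤ t) (hpos : (X t).PosDef) :
    HasDerivWithinAt (fun r => (X r).det.re) ((X t).det.re * (Psi L (X t) - gg L))
      (Ici t) t := by
  obtain ⟨h0, h1⟩ := det_real hpos
  have hu : IsUnit (X t).det := by
    rw [isUnit_iff_ne_zero]
    intro h
    rw [h, Complex.zero_re] at h0
    exact lt_irrefl _ h0
  have h2 := det_sol hH hs hX ht hu
  have h3 := Complex.reCLM.hasFDerivAt.comp_hasDerivWithinAt t h2
  refine h3.congr_deriv ?_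
  rw [← trace_inv_DD hu, Complex.reCLM_apply, Complex.mul_re, h1, zero_mul, sub_zero]

theorem det_re_cont {X : ℝ → Mat d} (hX : Continuous X) : Continuous fun r => (X r).det.re :=
  Complex.continuous_re.comp hX.matrix_det

theorem y_lower {H : ℝ → Mat d} (hH : IsDrive H) {L : Fin m → Mat d} {s : ℝ} (hs : 0 ≤ s)
    {X : ℝ → Mat d} (hX : Sol H L s X) {t : ℝ} (ht : s ≤ t)
    (hpos : ∀ r ∈ Ico s t, (X r).PosDef) :
    (X s).det.re * Real.exp (-(gg L * (t - s))) ≤ (X t).det.re := by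
  have hexp : ∀ x, HasDerivAt (fun r => Real.exp (gg L * (r - s)))
      (gg L * Real.exp (gg L * (x - s))) x := by
    intro x
    have h1 : HasDerivAt (fun r => gg L * (r - s)) (gg L) x := by
      have := ((hasDerivAt_id x).sub_const s).const_mul (gg L)
      exact this.congr_deriv (by ring)
    exact h1.exp.congr_deriv (by ring)
  have hmain := image_le_of_deriv_right_le_deriv_boundary
    (f := fun _ => (X s).det.re) (f' := fun _ => 0)
    (B := fun r => (X r).det.re * Real.exp (gg L * (r - s)))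
    (B' := fun x => (X x).det.re * (Psi L (X x) - gg L) * Real.exp (gg L * (x - s)) +
      (X x).det.re * (gg L * Real.exp (gg L * (x - s)))) (a := s) (b := t)
    continuousOn_const (fun x _ => hasDerivWithinAt_const _ _ _) (by simp)
    ((det_re_cont hX.cont).mul (by fun_prop)).continuousOn
    (fun x hx => (y_deriv hH hs hX hx.1 (hpos x hx)).mul (hexp x).hasDerivWithinAt)
    (fun x hx => by
      have h1 := (det_real (hpos x hx)).1
      have h2 := Psi_nonneg (hpos x hx) L
      have h3 := Real.exp_pos (gg L * (x - s))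
      have h4 : (X x).det.re * (Psi L (X x) - gg L) * Real.exp (gg L * (x - s)) +
        (X x).det.re * (gg L * Real.exp (gg L * (x - s))) =
        (X x).det.re * Psi L (X x) * Real.exp (gg L * (x - s)) := by ring
      rw [h4]
      positivity) (x := t) ⟨ht, le_rfl⟩

  have h5 : (X s).det.re * Real.exp (-(gg L * (t - s))) ≤
      (X t).det.re * Real.exp (gg L * (t - s)) * Real.exp (-(gg L * (t - s))) :=
    mul_le_mul_of_nonneg_right hmain (Real.exp_pos _).le
  rwa [mul_assoc, ← Real.exp_add, add_neg_cancel, Real.exp_zero, mul_one] at h5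

/-- the quadratic form -/
def qf (M : Mat d) (v : Fin d → ℂ) : ℝ := (star v ⬝ᵥ (M *ᵥ v)).re

theorem posDef_of_qf {M : Mat d} (hM : M.IsHermitian) (h : ∀ v, v ≠ 0 → 0 < qf M v) :
    M.PosDef := by
  refine Matrix.PosDef.of_dotProduct_mulVec_pos hM fun v hv => ?_
  rw [Complex.lt_def]
  refine ⟨h v hv, ?_⟩
  have := hM.im_star_dotProduct_mulVec_self v
  exact this.symm

theorem posSemidef_of_qf {M : Mat d} (hM : M.IsHermitian) (h : ∀ v, 0 ≤ qf M v) :
    M.PosSemidef := by
  refine Matrix.PosSemidef.of_dotProduct_mulVec_nonneg hM fun v => ?_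
  rw [Complex.le_def]
  refine ⟨h v, ?_⟩
  have := hM.im_star_dotProduct_mulVec_self v
  exact this.symm

theorem qf_nonneg {M : Mat d} (hM : M.PosSemidef) (v : Fin d → ℂ) : 0 ≤ qf M v :=
  (Complex.le_def.1 (hM.dotProduct_mulVec_nonneg v)).1

theorem qf_pos {M : Mat d} (hM : M.PosDef) {v : Fin d → ℂ} (hv : v ≠ 0) : 0 < qf M v :=
  (Complex.lt_def.1 (hM.dotProduct_mulVec_pos hv)).1

theorem qf_smul (M : Mat d) (c : ℝ) (v : Fin d → ℂ) : qf M ((c : ℂ) • v) = c ^ 2 * qf M v := by
  unfold qf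
  rw [star_smul, Matrix.mulVec_smul, smul_dotProduct, dotProduct_smul, smul_eq_mul, smul_eq_mul,
    ← mul_assoc]
  have : star (c : ℂ) * (c : ℂ) = ((c ^ 2 : ℝ) : ℂ) := by
    rw [Complex.star_def, Complex.conj_ofReal]
    push_cast
    ring
  rw [this, Complex.re_ofReal_mul]

theorem qf_cont {Y : Type*} [TopologicalSpace Y] {M : Y → Mat d} {v : Y → Fin d → ℂ}
    (hM : Continuous M) (hv : Continuous v) : Continuous fun y => qf (M y) (v y) := by
  unfold qf
  exact Complex.continuous_re.comp ((continuous_star.comp hv).dotProduct (hM.matrix_mulVec hv))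

theorem pos_persist {H : ℝ → Mat d} (hH : IsDrive H) {L : Fin m → Mat d} {s : ℝ} (hs : 0 ≤ s)
    {X : ℝ → Mat d} (hX : Sol H L s X) (h0 : (X s).PosDef) (t : ℝ) (ht : s ≤ t) :
    (X t).PosDef := by
  by_contra hcon
  have hherm : ∀ r, s ≤ r → (X r).IsHermitian := fun r hr => hX.hermitian hH hs h0.isHermitian r hr
  obtain ⟨K, hK⟩ : ∃ K : Set (ℝ × (Fin d → ℂ)), K = {p | p.1 ∈ Icc s t ∧ ∑ i, ‖p.2 i‖ ^ 2 = 1 ∧
      qf (X p.1) p.2 ≤ 0} := ⟨_, rfl⟩
  have hbad : ∀ r ∈ Icc s t, ¬ (X r).PosDef → ∃ p ∈ K, p.1 = r := by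
    intro r hr hnot
    obtain ⟨v, hv, hq⟩ : ∃ v, v ≠ 0 ∧ qf (X r) v ≤ 0 := by
      by_contra hno
      push Not at hno
      exact hnot (posDef_of_qf (hherm r hr.1) hno)
    have hN : 0 < ∑ i, ‖v i‖ ^ 2 := by
      obtain ⟨i, hi⟩ := Function.ne_iff.1 hv
      refine Finset.sum_pos' (fun i _ => by positivity) ⟨i, Finset.mem_univ i, ?_⟩
      have : 0 < ‖v i‖ := norm_pos_iff.2 hi
      positivity
    obtain ⟨N, hNN⟩ : ∃ N, N = Real.sqrt (∑ i, ‖v i‖ ^ 2) := ⟨_, rfl⟩
    have hN0 : 0 < N := by rw [hNN]; exact Real.sqrt_pos.2 hN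
    refine ⟨(r, ((N⁻¹ : ℝ) : ℂ) • v), ?_, rfl⟩
    rw [hK]
    refine ⟨hr, ?_, ?_⟩
    · simp only [Pi.smul_apply, smul_eq_mul, norm_mul, mul_pow]
      rw [← Finset.mul_sum, Complex.norm_real, Real.norm_eq_abs, sq_abs, inv_pow, hNN,
        Real.sq_sqrt hN.le, inv_mul_cancel₀ hN.ne']
    · simp only
      rw [qf_smul]
      exact mul_nonpos_of_nonneg_of_nonpos (sq_nonneg _) hq
  have hcomp : IsCompact K := by
    have hbig : IsCompact ((Icc s t) ×ˢ (Metric.closedBall (0 : Fin d → ℂ) 1)) :=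
      isCompact_Icc.prod (isCompact_closedBall _ _)
    refine hbig.of_isClosed_subset ?_ ?_
    · rw [hK]
      have c1 : IsClosed {p : ℝ × (Fin d → ℂ) | p.1 ∈ Icc s t} :=
        isClosed_Icc.preimage continuous_fst
      have c2 : IsClosed {p : ℝ × (Fin d → ℂ) | ∑ i, ‖p.2 i‖ ^ 2 = 1} :=
        isClosed_eq (by fun_prop) continuous_const
      have c3 : IsClosed {p : ℝ × (Fin d → ℂ) | qf (X p.1) p.2 ≤ 0} :=
        isClosed_le (qf_cont (hX.cont.comp continuous_fst) continuous_snd) continuous_const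
      exact c1.inter (c2.inter c3)
    · rw [hK]
      rintro ⟨r, v⟩ ⟨h1, h2, -⟩
      refine ⟨h1, ?_⟩
      rw [mem_closedBall_zero_iff, pi_norm_le_iff_of_nonneg zero_le_one]
      intro i
      have h3 : ‖v i‖ ^ 2 ≤ 1 := by
        rw [← h2]
        exact Finset.single_le_sum (f := fun i => ‖v i‖ ^ 2) (fun i _ => by positivity)
          (Finset.mem_univ i)
      have := norm_nonneg (v i)
      nlinarith
  obtain ⟨p0, hp0, hp0t⟩ := hbad t ⟨ht, le_rfl⟩ hcon
  obtain ⟨⟨T, v⟩, hpK, hmin⟩ := hcomp.exists_isMinOn ⟨p0, hp0⟩ continuous_fst.continuousOn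
  have hpK' := hpK
  rw [hK] at hpK'
  obtain ⟨hT, hv1, hvq⟩ := hpK'
  simp only at hT hv1 hvq
  have hv0 : v ≠ 0 := by
    intro h
    rw [h] at hv1
    simp at hv1
  have hTnot : ¬ (X T).PosDef := fun h => absurd (qf_pos h hv0) (not_lt.2 hvq)
  have hsT : s < T := lt_of_le_of_ne hT.1 fun h => hTnot (h ▸ h0)
  have hbefore : ∀ r ∈ Ico s T, (X r).PosDef := by
    intro r hr
    by_contra hnot
    obtain ⟨p, hp, hpr⟩ := hbad r ⟨hr.1, hr.2.le.trans hT.2⟩ hnot
    have := hmin hp
    simp only [Set.mem_ofPred_eq] at this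
    rw [hpr] at this
    exact absurd this (not_le.2 hr.2)
  have hpsd : (X T).PosSemidef := by
    refine posSemidef_of_qf (hherm T hT.1) fun w => ?_
    have hcl : IsClosed {r | 0 ≤ qf (X r) w} :=
      isClosed_le continuous_const (qf_cont hX.cont continuous_const)
    have hsub : Ico s T ⊆ {r | 0 ≤ qf (X r) w} := fun r hr => qf_nonneg (hbefore r hr).posSemidef w
    have h1 := hcl.closure_subset_iff.2 hsub
    rw [closure_Ico hsT.ne] at h1
    exact h1 ⟨hsT.le, le_rfl⟩
  have hdet := y_lower hH hs hX hsT.le hbefore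
  have hdet0 : 0 < (X s).det.re * Real.exp (-(gg L * (T - s))) :=
    mul_pos (det_real h0).1 (Real.exp_pos _)
  refine hTnot (hpsd.posDef_iff_det_ne_zero.2 fun h => ?_)
  rw [h, Complex.zero_re] at hdet
  linarith

/-- the uniform lower bound for the determinant after unit time -/
theorem det_lower (hd : 2 ≤ d) {L : Fin m → Mat d} (hL : Algebra.adjoin ℂ (Set.range L) = ⊤) :
    ∃ y0 : ℝ, 0 < y0 ∧ ∀ H : ℝ → Mat d, IsDrive H → ∀ s : ℝ, 0 ≤ s → ∀ X : ℝ → Mat d,
      Sol H L s X → (X s).PosDef → (X s).trace = 1 → y0 ≤ (X (s + 1)).det.re := by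
  obtain ⟨c1, hc1, hlow⟩ := Psi_lower hd hL
  have hN : d * (d - 1) ≠ 0 := by
    have : 0 < d - 1 := by omega
    positivity
  obtain ⟨N, hNN⟩ : ∃ N, N = d * (d - 1) := ⟨_, rfl⟩
  rw [← hNN] at hN hlow
  have hN0 : (0 : ℝ) < N := by
    have : 0 < N := by omega
    exact_mod_cast this
  obtain ⟨α, hα⟩ : ∃ α : ℝ, α = (N : ℝ)⁻¹ := ⟨_, rfl⟩
  have hα0 : 0 < α := by rw [hα]; positivity
  rw [← hα] at hlow
  refine ⟨(α * c1 * Real.exp (-(α * gg L))) ^ N, by positivity, ?_⟩
  intro H hH s hs X hX h0 htr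
  have hpd : ∀ t, s ≤ t → (X t).PosDef := fun t ht => pos_persist hH hs hX h0 t ht
  have htr' : ∀ t, s ≤ t → (X t).trace = 1 := fun t ht => by rw [hX.trace hH hs t ht, htr]
  have hexp : ∀ x, HasDerivAt (fun r => Real.exp (α * gg L * (r - s)))
      (α * gg L * Real.exp (α * gg L * (x - s))) x := by
    intro x
    have h1 : HasDerivAt (fun r => α * gg L * (r - s)) (α * gg L) x := by
      have := ((hasDerivAt_id x).sub_const s).const_mul (α * gg L)
      exact this.congr_deriv (by ring)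
    exact h1.exp.congr_deriv (by ring)
  have hy0 : ∀ x, s ≤ x → 0 < (X x).det.re := fun x hx => (det_real (hpd x hx)).1
  have hcontw : ContinuousOn (fun r => (X r).det.re ^ α) (Icc s (s + 1)) := by
    refine ContinuousOn.rpow_const (det_re_cont hX.cont).continuousOn fun x hx => ?_
    exact Or.inl (hy0 x hx.1).ne'
  have hmain := image_le_of_deriv_right_le_deriv_boundary
    (f := fun r => α * c1 * (r - s)) (f' := fun _ => α * c1)
    (B := fun r => (X r).det.re ^ α * Real.exp (α * gg L * (r - s)))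
    (B' := fun x => (X x).det.re * (Psi L (X x) - gg L) * α * (X x).det.re ^ (α - 1) *
      Real.exp (α * gg L * (x - s)) +
      (X x).det.re ^ α * (α * gg L * Real.exp (α * gg L * (x - s)))) (a := s) (b := s + 1)
    (by fun_prop) (fun x _ => by
      have := (((hasDerivAt_id x).sub_const s).const_mul (α * c1)).hasDerivWithinAt (s := Ici x)
      exact this.congr_deriv (by ring))
    (by
      have := Real.rpow_nonneg (hy0 s le_rfl).le α
      simp only [sub_self, mul_zero, Real.exp_zero, mul_one]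
      exact this)
    (hcontw.mul (by fun_prop))
    (fun x hx => ((y_deriv hH hs hX hx.1 (hpd x hx.1)).rpow_const
      (Or.inl (hy0 x hx.1).ne')).mul (hexp x).hasDerivWithinAt)
    (fun x hx => by
      have h1 := hlow (X x) (hpd x hx.1) (htr' x hx.1)
      have hy := hy0 x hx.1
      have h2 : (X x).det.re * (X x).det.re ^ (α - 1) = (X x).det.re ^ α := by
        rw [Real.rpow_sub_one hy.ne']
        field_simp
      have h3 : (1 : ℝ) ≤ Real.exp (α * gg L * (x - s)) := by
        rw [← Real.exp_zero]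
        refine Real.exp_le_exp.2 ?_
        have := gg_nonneg L
        have : 0 ≤ x - s := by linarith [hx.1]
        positivity
      have h4 : (X x).det.re * (Psi L (X x) - gg L) * α * (X x).det.re ^ (α - 1) *
          Real.exp (α * gg L * (x - s)) +
          (X x).det.re ^ α * (α * gg L * Real.exp (α * gg L * (x - s))) =
          α * (Psi L (X x) * (X x).det.re ^ α) * Real.exp (α * gg L * (x - s)) := by
        rw [← h2]
        ring
      rw [h4]
      have h5 : α * c1 ≤ α * (Psi L (X x) * (X x).det.re ^ α) :=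
        mul_le_mul_of_nonneg_left h1 hα0.le
      have h6 : 0 ≤ α * (Psi L (X x) * (X x).det.re ^ α) := le_trans (by positivity) h5
      nlinarith) (x := s + 1) ⟨by linarith, le_rfl⟩

  have e1 : s + 1 - s = 1 := by ring
  rw [e1, mul_one, mul_one] at hmain
  have hw : α * c1 * Real.exp (-(α * gg L)) ≤ (X (s + 1)).det.re ^ α := by
    have h5 := mul_le_mul_of_nonneg_right hmain (Real.exp_pos (-(α * gg L))).le
    rwa [mul_assoc ((X (s + 1)).det.re ^ α), ← Real.exp_add, add_neg_cancel, Real.exp_zero,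
      mul_one] at h5
  have hy1 : 0 < (X (s + 1)).det.re := hy0 _ (by linarith)
  calc (α * c1 * Real.exp (-(α * gg L))) ^ N ≤ ((X (s + 1)).det.re ^ α) ^ N :=
        pow_le_pow_left₀ (by positivity) hw N
    _ = (X (s + 1)).det.re := by
        rw [hα]
        exact Real.rpow_inv_natCast_pow hy1.le hN

/-- the determinant bounds the lowest eigenvalue -/
theorem sub_posSemidef {ρ : Mat d} (hρ : ρ.PosDef) (htr : ρ.trace = 1) {y : ℝ}
    (hy : y ≤ ρ.det.re) : (ρ - (y : ℂ) • (1 : Mat d)).PosSemidef := by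
  obtain ⟨U, lam, hU, hlam, hdet, htrace, hsp⟩ := Psi_eq hρ
  have hU' : U * Uᴴ = 1 := mul_eq_one_comm.1 hU
  have hsum : ∑ i, lam i = 1 := by
    rw [htr] at htrace
    exact_mod_cast htrace.symm
  have hle1 : ∀ i, lam i ≤ 1 := by
    intro i
    rw [← hsum]
    exact Finset.single_le_sum (fun i _ => (hlam i).le) (Finset.mem_univ i)
  have hyl : ∀ i, y ≤ lam i := by
    intro i
    rw [hdet, Complex.ofReal_re] at hy
    refine hy.trans ?_
    rw [← Finset.mul_prod_erase Finset.univ lam (Finset.mem_univ i)]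
    have : ∏ j ∈ Finset.univ.erase i, lam j ≤ 1 :=
      Finset.prod_le_one (fun j _ => (hlam j).le) fun j _ => hle1 j
    have := hlam i
    nlinarith
  have e : ρ - (y : ℂ) • (1 : Mat d) = U * diagonal (fun i => ((lam i - y : ℝ) : ℂ)) * Uᴴ := by
    have e1 : diagonal (fun i => ((lam i - y : ℝ) : ℂ)) =
        diagonal (fun i => (lam i : ℂ)) - (y : ℂ) • (1 : Mat d) := by
      ext i j
      by_cases hij : i = j
      · subst hij
        simp
      · simp [Matrix.diagonal_apply_ne _ hij, Matrix.one_apply_ne hij]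
    rw [e1, Matrix.mul_sub, Matrix.sub_mul, ← hsp, Matrix.mul_smul, Matrix.mul_one,
      Matrix.smul_mul, hU']
  rw [e]
  refine Matrix.PosSemidef.mul_mul_conjTranspose_same ?_ U
  refine Matrix.PosSemidef.diagonal fun i => ?_
  rw [Pi.zero_apply, Complex.zero_le_real]
  linarith [hyl i]

end Pool.Agent.V11261.LB
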