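import Mathlib
import Pool.Agent.V11261.LB.Pos

/-!
# Contraction of the propagators
-/

set_option autoImplicit false

noncomputable section

namespace Pool.Agent.V11261.LB

open Matrix MeasureTheory Set Filter Topology
open scoped ComplexOrder

variable {d m : ℕ}

/-- `E t s` is the propagator of the driven Lindblad equation: for every initial time `s ≥ 0` and
every matrix `ρ` the path `t ↦ E t s ρ`, `t ≥ s`, is continuous and solves the equation in the
integral sense, with `E s s ρ = ρ` -/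
structure IsPropagator (H : ℝ → Mat d) (L : Fin m → Mat d)
    (E : ℝ → ℝ → Mat d →ₗ[ℂ] Mat d) : Prop where
  cont : ∀ s, 0 ≤ s → ∀ (ρ : Mat d) (i j : Fin d), ContinuousOn (fun t => E t s ρ i j) (Ici s)
  eq : ∀ s t, 0 ≤ s → s ≤ t → ∀ (ρ : Mat d) (i j : Fin d),
    E t s ρ i j = ρ i j + ∫ r in s..t, lind (H r) L (E r s ρ) i j

/-- density matrices -/
def IsDensity (ρ : Mat d) : Prop := ρ.PosSemidef ∧ ρ.trace = 1

/-- the trace norm: the sum of the singular values -/
def traceNorm (X : Mat d) : ℝ :=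
  ∑ i, Real.sqrt ((Matrix.isHermitian_conjTranspose_mul_self X).eigenvalues i)

section prop

variable {H : ℝ → Mat d} {L : Fin m → Mat d} {E : ℝ → ℝ → Mat d →ₗ[ℂ] Mat d}

theorem IsPropagator.self (hE : IsPropagator H L E) {s : ℝ} (hs : 0 ≤ s) (ρ : Mat d) :
    E s s ρ = ρ := by
  ext i j
  rw [hE.eq s s hs le_rfl ρ i j, intervalIntegral.integral_same, add_zero]

theorem IsPropagator.sol (hE : IsPropagator H L E) {s : ℝ} (hs : 0 ≤ s) (ρ : Mat d) :
    Sol H L s (fun t => E (max s t) s ρ) := by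
  refine ⟨continuous_matrix fun i j => ?_, fun t ht i j => ?_⟩
  · exact (hE.cont s hs ρ i j).comp_continuous (continuous_const.max continuous_id)
      fun t => Set.mem_Ici.2 (le_max_left _ _)
  · simp only [max_self]
    rw [hE.self hs, max_eq_right ht, hE.eq s t hs ht ρ i j]
    congr 1
    refine intervalIntegral.integral_congr fun r hr => ?_
    rw [uIcc_of_le ht] at hr
    simp only [max_eq_right hr.1]

theorem IsPropagator.cocycle (hH : IsDrive H) (hE : IsPropagator H L E) {s r t : ℝ} (hs : 0 ≤ s)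
    (hr : s ≤ r) (ht : r ≤ t) (ρ : Mat d) : E t s ρ = E t r (E r s ρ) := by
  have h1 := (hE.sol hs ρ).restrict hH hs hr
  have h2 := hE.sol (hs.trans hr) (E r s ρ)
  have h3 := h1.unique hH (hs.trans hr) h2 (by
    simp only [max_self, max_eq_right hr]
    rw [hE.self (hs.trans hr)]) t ht
  simpa only [max_eq_right (hr.trans ht), max_eq_right ht] using h3

theorem IsPropagator.trace (hH : IsDrive H) (hE : IsPropagator H L E) {s t : ℝ} (hs : 0 ≤ s)
    (ht : s ≤ t) (ρ : Mat d) : (E t s ρ).trace = ρ.trace := by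
  have := (hE.sol hs ρ).trace hH hs t ht
  simpa only [max_eq_right ht, max_self, hE.self hs] using this

theorem IsPropagator.herm (hH : IsDrive H) (hE : IsPropagator H L E) {s t : ℝ} (hs : 0 ≤ s)
    (ht : s ≤ t) {ρ : Mat d} (hρ : ρ.IsHermitian) : (E t s ρ).IsHermitian := by
  have := (hE.sol hs ρ).hermitian hH hs (by simpa only [max_self, hE.self hs] using hρ) t ht
  simpa only [max_eq_right ht] using this

theorem IsPropagator.posDef (hH : IsDrive H) (hE : IsPropagator H L E) {s t : ℝ} (hs : 0 ≤ s)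
    (ht : s ≤ t) {ρ : Mat d} (hρ : ρ.PosDef) : (E t s ρ).PosDef := by
  have := pos_persist hH hs (hE.sol hs ρ) (by simpa only [max_self, hE.self hs] using hρ) t ht
  simpa only [max_eq_right ht] using this

end prop

theorem qf_add (M N : Mat d) (v : Fin d → ℂ) : qf (M + N) v = qf M v + qf N v := by
  unfold qf
  rw [Matrix.add_mulVec, dotProduct_add, Complex.add_re]

theorem qf_sub (M N : Mat d) (v : Fin d → ℂ) : qf (M - N) v = qf M v - qf N v := by
  unfold qf
  rw [Matrix.sub_mulVec, dotProduct_sub, Complex.sub_re]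

theorem qf_csmul (c : ℝ) (M : Mat d) (v : Fin d → ℂ) : qf ((c : ℂ) • M) v = c * qf M v := by
  unfold qf
  rw [Matrix.smul_mulVec, dotProduct_smul, smul_eq_mul, Complex.re_ofReal_mul]

theorem qf_one (v : Fin d → ℂ) : qf (1 : Mat d) v = ∑ i, ‖v i‖ ^ 2 := by
  unfold qf
  rw [Matrix.one_mulVec]
  unfold dotProduct
  rw [Complex.re_sum]
  refine Finset.sum_congr rfl fun i _ => ?_
  rw [Pi.star_apply, Complex.star_def, ← Complex.normSq_eq_conj_mul_self, Complex.ofReal_re,
    Complex.normSq_eq_norm_sq]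

theorem abs_qf (M : Mat d) (v : Fin d → ℂ) : |qf M v| ≤ nn M * qf 1 v := by
  have h1 : |qf M v| ≤ ‖star v ⬝ᵥ (M *ᵥ v)‖ := Complex.abs_re_le_norm _
  refine h1.trans ?_
  unfold dotProduct Matrix.mulVec dotProduct
  refine (norm_sum_le _ _).trans ?_
  have h2 : ∀ i j, ‖v i‖ * ‖v j‖ ≤ qf 1 v := by
    intro i j
    have hi : ‖v i‖ ^ 2 ≤ qf 1 v := by
      rw [qf_one]
      exact Finset.single_le_sum (f := fun i => ‖v i‖ ^ 2) (fun i _ => by positivity)
        (Finset.mem_univ i)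
    have hj : ‖v j‖ ^ 2 ≤ qf 1 v := by
      rw [qf_one]
      exact Finset.single_le_sum (f := fun i => ‖v i‖ ^ 2) (fun i _ => by positivity)
        (Finset.mem_univ j)
    nlinarith [sq_nonneg (‖v i‖ - ‖v j‖)]
  unfold nn
  rw [Finset.sum_mul]
  refine Finset.sum_le_sum fun i _ => ?_
  rw [norm_mul, Pi.star_apply, norm_star, Finset.sum_mul]
  refine (mul_le_mul_of_nonneg_left (norm_sum_le _ _) (norm_nonneg _)).trans ?_
  rw [Finset.mul_sum]
  refine Finset.sum_le_sum fun j _ => ?_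
  rw [norm_mul]
  have := h2 i j
  calc ‖v i‖ * (‖M i j‖ * ‖v j‖) = ‖M i j‖ * (‖v i‖ * ‖v j‖) := by ring
    _ ≤ ‖M i j‖ * qf 1 v := mul_le_mul_of_nonneg_left this (norm_nonneg _)

theorem le_of_eps {a b c e : ℝ} (h : ∀ ε : ℝ, 0 < ε → a + ε * b ≤ c + ε * e) : a ≤ c := by
  by_contra hlt
  rw [not_le] at hlt
  have h1 : 0 < |e - b| + 1 := by positivity
  have h2 := h ((a - c) / (2 * (|e - b| + 1))) (by
    have : 0 < a - c := by linarith
    positivity)
  have h3 : (a - c) / (2 * (|e - b| + 1)) * (e - b) ≤ (a - c) / 2 := by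
    have h4 : e - b ≤ |e - b| + 1 := by linarith [le_abs_self (e - b)]
    have h5 : 0 ≤ (a - c) / (2 * (|e - b| + 1)) := by
      have : 0 < a - c := by linarith
      positivity
    refine (mul_le_mul_of_nonneg_left h4 h5).trans (le_of_eq ?_)
    field_simp
  nlinarith

theorem herm_smul_one (c : ℝ) : ((c : ℂ) • (1 : Mat d)).IsHermitian := by
  unfold Matrix.IsHermitian
  rw [Matrix.conjTranspose_smul, Matrix.conjTranspose_one, Complex.star_def, Complex.conj_ofReal]

theorem posDef_add_eps {ρ : Mat d} (hρ : ρ.PosSemidef) {ε : ℝ} (hε : 0 < ε) :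
    (ρ + (ε : ℂ) • (1 : Mat d)).PosDef := by
  refine posDef_of_qf (hρ.isHermitian.add (herm_smul_one ε)) fun v hv => ?_
  rw [qf_add, qf_csmul]
  have h1 := qf_nonneg hρ v
  have h2 : 0 < qf (1 : Mat d) v := qf_pos Matrix.PosDef.one hv
  positivity

section prop

variable {H : ℝ → Mat d} {L : Fin m → Mat d} {E : ℝ → ℝ → Mat d →ₗ[ℂ] Mat d}

theorem IsPropagator.posSemidef (hH : IsDrive H) (hE : IsPropagator H L E) {s t : ℝ} (hs : 0 ≤ s)
    (ht : s ≤ t) {ρ : Mat d} (hρ : ρ.PosSemidef) : (E t s ρ).PosSemidef := by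
  refine posSemidef_of_qf (hE.herm hH hs ht hρ.isHermitian) fun v => ?_
  refine le_of_eps (b := 0) (e := qf (E t s 1) v) fun ε hε => ?_
  have h1 := hE.posDef hH hs ht (posDef_add_eps hρ hε)
  have h2 := qf_nonneg h1.posSemidef v
  rw [map_add, map_smul, qf_add, qf_csmul] at h2
  linarith

theorem trace_re_pos (hd : 2 ≤ d) {ρ : Mat d} (hρ : ρ.PosDef) :
    0 < ρ.trace.re ∧ ρ.trace.im = 0 := by
  obtain ⟨U, lam, hU, hlam, -, htr, -⟩ := Psi_eq hρ
  rw [htr]
  have : Nonempty (Fin d) := ⟨⟨0, by omega⟩⟩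
  refine ⟨?_, Complex.ofReal_im _⟩
  rw [Complex.ofReal_re]
  exact Finset.sum_pos (fun i _ => hlam i) Finset.univ_nonempty

/-- the lower bound after unit time -/
theorem IsPropagator.low (hd : 2 ≤ d) {y0 : ℝ}
    (hy : ∀ H : ℝ → Mat d, IsDrive H → ∀ s : ℝ, 0 ≤ s → ∀ X : ℝ → Mat d,
      Sol H L s X → (X s).PosDef → (X s).trace = 1 → y0 ≤ (X (s + 1)).det.re)
    (hH : IsDrive H) (hE : IsPropagator H L E) {s : ℝ} (hs : 0 ≤ s) {ρ : Mat d}
    (hρ : ρ.PosSemidef) (v : Fin d → ℂ) :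
    y0 * ρ.trace.re * qf 1 v ≤ qf (E (s + 1) s ρ) v := by
  have hs1 : s ≤ s + 1 := by linarith
  -- density matrices
  have h1 : ∀ σ : Mat d, σ.PosDef → σ.trace = 1 → y0 * qf 1 v ≤ qf (E (s + 1) s σ) v := by
    intro σ hσ htr
    have hX := hE.sol hs σ
    have h2 := hy H hH s hs _ hX (by simpa only [max_self, hE.self hs] using hσ)
      (by simpa only [max_self, hE.self hs] using htr)
    simp only [max_eq_right hs1] at h2
    have h3 := sub_posSemidef (hE.posDef hH hs hs1 hσ)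
      (by rw [hE.trace hH hs hs1, htr]) h2
    have h4 := qf_nonneg h3 v
    rw [qf_sub, qf_csmul] at h4
    linarith
  -- positive definite matrices
  have h2 : ∀ σ : Mat d, σ.PosDef → y0 * σ.trace.re * qf 1 v ≤ qf (E (s + 1) s σ) v := by
    intro σ hσ
    obtain ⟨ht0, ht1⟩ := trace_re_pos hd hσ
    have hpd : (((σ.trace.re)⁻¹ : ℝ) : ℂ) • σ |>.PosDef := by
      refine posDef_of_qf ?_ fun w hw => ?_
      · unfold Matrix.IsHermitian
        rw [Matrix.conjTranspose_smul, hσ.isHermitian.eq, Complex.star_def, Complex.conj_ofReal]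
      · rw [qf_csmul]
        have := qf_pos hσ hw
        positivity
    have htr : ((((σ.trace.re)⁻¹ : ℝ) : ℂ) • σ).trace = 1 := by
      rw [Matrix.trace_smul, smul_eq_mul]
      have : σ.trace = ((σ.trace.re : ℝ) : ℂ) := by
        apply Complex.ext
        · rw [Complex.ofReal_re]
        · rw [Complex.ofReal_im, ht1]
      rw [this, Complex.ofReal_re, ← Complex.ofReal_mul, inv_mul_cancel₀ ht0.ne',
        Complex.ofReal_one]
    have h3 := h1 _ hpd htr
    rw [map_smul, qf_csmul] at h3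
    have h4 := mul_le_mul_of_nonneg_left h3 ht0.le
    rw [← mul_assoc σ.trace.re (σ.trace.re)⁻¹, mul_inv_cancel₀ ht0.ne', one_mul] at h4
    linarith
  refine le_of_eps (b := y0 * d * qf 1 v) (e := qf (E (s + 1) s 1) v) fun ε hε => ?_
  have h3 := h2 _ (posDef_add_eps hρ hε)
  rw [map_add, map_smul, qf_add, qf_csmul, Matrix.trace_add, Matrix.trace_smul, Matrix.trace_one,
    Fintype.card_fin, Complex.add_re, smul_eq_mul, Complex.re_ofReal_mul, Complex.natCast_re] at h3
  linarith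

/-- iteration of the contraction -/
theorem IsPropagator.iter (hd : 2 ≤ d) {y0 : ℝ}
    (hy : ∀ H : ℝ → Mat d, IsDrive H → ∀ s : ℝ, 0 ≤ s → ∀ X : ℝ → Mat d,
      Sol H L s X → (X s).PosDef → (X s).trace = 1 → y0 ≤ (X (s + 1)).det.re)
    (hH : IsDrive H) (hE : IsPropagator H L E) {s : ℝ} (hs : 0 ≤ s) {A B : Mat d} {τ : ℝ}
    (hA : A.PosSemidef) (hB : B.PosSemidef) (hAt : A.trace = (τ : ℂ)) (hBt : B.trace = (τ : ℂ))
    (n : ℕ) : ∃ A' B' : Mat d, A'.PosSemidef ∧ B'.PosSemidef ∧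
      A'.trace = ((τ * (1 - d * y0) ^ n : ℝ) : ℂ) ∧ B'.trace = ((τ * (1 - d * y0) ^ n : ℝ) : ℂ) ∧
      E (s + n) s (A - B) = A' - B' := by
  induction n with
  | zero =>
    refine ⟨A, B, hA, hB, by rw [hAt]; simp, by rw [hBt]; simp, ?_⟩
    rw [Nat.cast_zero, add_zero, hE.self hs]
  | succ n ih =>
    obtain ⟨A', B', hA', hB', hAt', hBt', hAB⟩ := ih
    have hn : 0 ≤ s + n := by positivity
    have hn1 : s + n ≤ s + n + 1 := by linarith
    obtain ⟨τ', hτ'⟩ : ∃ τ' : ℝ, τ' = τ * (1 - d * y0) ^ n := ⟨_, rfl⟩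
    rw [← hτ'] at hAt' hBt'
    have key : ∀ C : Mat d, C.PosSemidef → C.trace = (τ' : ℂ) →
        (E (s + n + 1) (s + n) C - ((y0 * τ' : ℝ) : ℂ) • (1 : Mat d)).PosSemidef ∧
        (E (s + n + 1) (s + n) C - ((y0 * τ' : ℝ) : ℂ) • (1 : Mat d)).trace =
          ((τ * (1 - d * y0) ^ (n + 1) : ℝ) : ℂ) := by
      intro C hC hCt
      constructor
      · refine posSemidef_of_qf ((hE.herm hH hn hn1 hC.isHermitian).sub (herm_smul_one _))
          fun v => ?_
        rw [qf_sub, qf_csmul]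
        have := hE.low hd hy hH hn hC v
        rw [hCt, Complex.ofReal_re] at this
        linarith
      · rw [Matrix.trace_sub, Matrix.trace_smul, Matrix.trace_one, Fintype.card_fin,
          hE.trace hH hn hn1, hCt, smul_eq_mul, pow_succ, ← mul_assoc, ← hτ']
        push_cast
        ring
    refine ⟨_, _, (key A' hA' hAt').1, (key B' hB' hBt').1, (key A' hA' hAt').2,
      (key B' hB' hBt').2, ?_⟩
    have e1 : s + ((n + 1 : ℕ) : ℝ) = s + n + 1 := by push_cast; ring
    rw [e1, hE.cocycle hH hs (show s ≤ s + n by linarith [(Nat.cast_nonneg n : (0 : ℝ) ≤ n)])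
      (by linarith) (A - B), hAB, map_sub]
    abel

end prop

/-- entries of a positive matrix -/
theorem psd_entry {A : Mat d} (hA : A.PosSemidef) (i j : Fin d) : ‖A i j‖ ≤ A.trace.re := by
  obtain ⟨hH⟩ : Nonempty A.IsHermitian := ⟨hA.isHermitian⟩
  have hsp := hH.spectral_theorem
  rw [Unitary.conjStarAlgAut_apply] at hsp
  have htr := hH.trace_eq_sum_eigenvalues
  have h0 : ∀ k, 0 ≤ hH.eigenvalues k := hA.eigenvalues_nonneg
  have hU : ∀ a b, ‖(hH.eigenvectorUnitary : Mat d) a b‖ ≤ 1 := fun a b =>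
    entry_norm_bound_of_unitary hH.eigenvectorUnitary.2 a b
  obtain ⟨lam, hlam⟩ : ∃ lam, lam = hH.eigenvalues := ⟨_, rfl⟩
  obtain ⟨U, hUU⟩ : ∃ U : Mat d, U = hH.eigenvectorUnitary := ⟨_, rfl⟩
  rw [← hlam] at h0 hsp htr
  rw [← hUU] at hU hsp
  have h1 : A i j = ∑ k, U i k * (lam k : ℂ) * star (U j k) := by
    rw [hsp, Matrix.mul_apply]
    refine Finset.sum_congr rfl fun k _ => ?_
    rw [Matrix.mul_diagonal, Matrix.star_apply]
    rfl
  rw [h1, htr]
  have h2 : (∑ k, ((lam k : ℝ) : ℂ)).re = ∑ k, lam k := by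
    rw [Complex.re_sum]
    exact Finset.sum_congr rfl fun k _ => Complex.ofReal_re _
  have h3 : (∑ k, ((RCLike.ofReal (lam k) : ℂ))).re = ∑ k, lam k := h2
  rw [h3]
  refine (norm_sum_le _ _).trans (Finset.sum_le_sum fun k _ => ?_)
  rw [norm_mul, norm_mul, norm_star, Complex.norm_real, Real.norm_eq_abs, abs_of_nonneg (h0 k)]
  have e1 := hU i k
  have e2 := hU j k
  have e3 := norm_nonneg (U i k)
  have e4 := norm_nonneg (U j k)
  calc ‖U i k‖ * lam k * ‖U j k‖ ≤ 1 * lam k * 1 := by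
        have := h0 k
        gcongr
    _ = lam k := by ring

theorem nn_psd {A : Mat d} (hA : A.PosSemidef) : nn A ≤ d ^ 2 * A.trace.re := by
  unfold nn
  refine (Finset.sum_le_sum fun a _ => Finset.sum_le_sum fun b _ => psd_entry hA a b).trans ?_
  simp
  exact le_of_eq (by ring)

theorem eig_sum (X : Mat d) :
    ∑ i, (Matrix.isHermitian_conjTranspose_mul_self X).eigenvalues i = ∑ i, ∑ j, ‖X j i‖ ^ 2 := by
  have h1 := (Matrix.isHermitian_conjTranspose_mul_self X).trace_eq_sum_eigenvalues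
  have h2 : (Xᴴ * X).trace = ((∑ i, ∑ j, ‖X j i‖ ^ 2 : ℝ) : ℂ) := by
    unfold Matrix.trace
    push_cast
    refine Finset.sum_congr rfl fun i _ => ?_
    rw [Matrix.diag_apply, Matrix.mul_apply]
    refine Finset.sum_congr rfl fun j _ => ?_
    rw [Matrix.conjTranspose_apply, Complex.star_def, ← Complex.normSq_eq_conj_mul_self,
      Complex.normSq_eq_norm_sq]
    push_cast
    rfl
  rw [h2] at h1
  have h3 := congrArg Complex.re h1
  rw [Complex.ofReal_re, Complex.re_sum] at h3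
  rw [h3]
  exact Finset.sum_congr rfl fun k _ => (Complex.ofReal_re _).symm

theorem eig_nonneg (X : Mat d) (i : Fin d) :
    0 ≤ (Matrix.isHermitian_conjTranspose_mul_self X).eigenvalues i :=
  (Matrix.posSemidef_conjTranspose_mul_self X).eigenvalues_nonneg i

theorem traceNorm_le (X : Mat d) : traceNorm X ≤ d * nn X := by
  unfold traceNorm
  have h1 : ∑ i, ∑ j, ‖X j i‖ ^ 2 ≤ nn X ^ 2 := by
    calc ∑ i, ∑ j, ‖X j i‖ ^ 2 ≤ ∑ i, ∑ j, ‖X j i‖ * nn X := by
          refine Finset.sum_le_sum fun i _ => Finset.sum_le_sum fun j _ => ?_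
          rw [sq]
          exact mul_le_mul_of_nonneg_left (entry_le X j i) (norm_nonneg _)
      _ = nn X ^ 2 := by
          simp only [← Finset.sum_mul]
          rw [Finset.sum_comm, sq]
          rfl
  have h2 : ∀ i, Real.sqrt ((Matrix.isHermitian_conjTranspose_mul_self X).eigenvalues i) ≤
      nn X := by
    intro i
    rw [Real.sqrt_le_left (nn_nonneg X)]
    refine le_trans ?_ h1
    rw [← eig_sum]
    exact Finset.single_le_sum (fun i _ => eig_nonneg X i) (Finset.mem_univ i)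
  refine (Finset.sum_le_sum fun i _ => h2 i).trans ?_
  simp

theorem nn_le_traceNorm (X : Mat d) : nn X ≤ d ^ 2 * traceNorm X := by
  have h0 : ∀ i, 0 ≤ Real.sqrt ((Matrix.isHermitian_conjTranspose_mul_self X).eigenvalues i) :=
    fun i => Real.sqrt_nonneg _
  have hT : 0 ≤ traceNorm X := Finset.sum_nonneg fun i _ => h0 i
  have h1 : ∑ i, ∑ j, ‖X j i‖ ^ 2 ≤ traceNorm X ^ 2 := by
    rw [← eig_sum]
    calc ∑ i, (Matrix.isHermitian_conjTranspose_mul_self X).eigenvalues i
        ≤ ∑ i, Real.sqrt ((Matrix.isHermitian_conjTranspose_mul_self X).eigenvalues i) *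
          traceNorm X := by
          refine Finset.sum_le_sum fun i _ => ?_
          conv_lhs => rw [← Real.mul_self_sqrt (eig_nonneg X i)]
          refine mul_le_mul_of_nonneg_left ?_ (h0 i)
          exact Finset.single_le_sum (f := fun i => Real.sqrt
            ((Matrix.isHermitian_conjTranspose_mul_self X).eigenvalues i))
            (fun i _ => h0 i) (Finset.mem_univ i)
      _ = traceNorm X ^ 2 := by
          rw [← Finset.sum_mul, sq]
          rfl
  have h2 : ∀ a b, ‖X a b‖ ≤ traceNorm X := by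
    intro a b
    refine abs_le_of_sq_le_sq' ?_ hT |>.2
    refine le_trans ?_ h1
    refine le_trans ?_ (Finset.single_le_sum (f := fun i => ∑ j, ‖X j i‖ ^ 2)
      (fun i _ => Finset.sum_nonneg fun j _ => by positivity) (Finset.mem_univ b))
    exact Finset.single_le_sum (f := fun j => ‖X j b‖ ^ 2) (fun j _ => by positivity)
      (Finset.mem_univ a)
  unfold nn
  refine (Finset.sum_le_sum fun a _ => Finset.sum_le_sum fun b _ => h2 a b).trans ?_
  simp
  exact le_of_eq (by ring)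

/-- the main theorem -/
theorem contractive (hd : 2 ≤ d) {L : Fin m → Mat d}
    (hL : Algebra.adjoin ℂ (Set.range L) = ⊤) :
    ∃ K γ : ℝ, 0 < K ∧ 0 < γ ∧ ∀ H : ℝ → Mat d, IsDrive H →
      ∀ E : ℝ → ℝ → Mat d →ₗ[ℂ] Mat d, IsPropagator H L E →
      ∀ ρ σ : Mat d, IsDensity ρ → IsDensity σ → ∀ s t : ℝ, 0 ≤ s → s ≤ t →
        traceNorm (E t s ρ - E t s σ) ≤ K * Real.exp (-(γ * (t - s))) * traceNorm (ρ - σ) := by
  obtain ⟨y1, hy1, hy1'⟩ := det_lower hd hL
  have hd0 : (0 : ℝ) < d := by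
    have : 0 < d := by omega
    exact_mod_cast this
  obtain ⟨y0, hy00⟩ : ∃ y0, y0 = min y1 (1 / (2 * d)) := ⟨_, rfl⟩
  have hy0 : 0 < y0 := by rw [hy00]; exact lt_min hy1 (by positivity)
  have hy : ∀ H : ℝ → Mat d, IsDrive H → ∀ s : ℝ, 0 ≤ s → ∀ X : ℝ → Mat d,
      Sol H L s X → (X s).PosDef → (X s).trace = 1 → y0 ≤ (X (s + 1)).det.re := by
    intro H hH s hs X hX h1 h2
    exact le_trans (by rw [hy00]; exact min_le_left _ _) (hy1' H hH s hs X hX h1 h2)
  have hyd : d * y0 ≤ 1 / 2 := by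
    have : y0 ≤ 1 / (2 * d) := by rw [hy00]; exact min_le_right _ _
    calc (d : ℝ) * y0 ≤ d * (1 / (2 * d)) := mul_le_mul_of_nonneg_left this hd0.le
      _ = 1 / 2 := by field_simp
  obtain ⟨q, hq⟩ : ∃ q : ℝ, q = 1 - d * y0 := ⟨_, rfl⟩
  have hq0 : 0 < q := by rw [hq]; linarith
  have hq1 : q < 1 := by rw [hq]; nlinarith
  refine ⟨2 * d ^ 6 * q⁻¹, -Real.log q, by positivity, ?_, ?_⟩
  · exact neg_pos.2 (Real.log_neg hq0 hq1)
  · intro H hH E hE ρ σ hρ hσ s t hs ht
    obtain ⟨X, hX⟩ : ∃ X, X = ρ - σ := ⟨_, rfl⟩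
    have hXh : X.IsHermitian := by rw [hX]; exact hρ.1.isHermitian.sub hσ.1.isHermitian
    have hXt : X.trace = 0 := by rw [hX, Matrix.trace_sub, hρ.2, hσ.2, sub_self]
    rw [← map_sub, ← hX]
    obtain ⟨f, hf⟩ : ∃ f, f = nn X := ⟨_, rfl⟩
    have hf0 : 0 ≤ f := by rw [hf]; exact nn_nonneg X
    have hA : (X + (f : ℂ) • (1 : Mat d)).PosSemidef := by
      refine posSemidef_of_qf (hXh.add (herm_smul_one f)) fun v => ?_
      rw [qf_add, qf_csmul]
      have := (abs_le.1 (abs_qf X v)).1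
      rw [← hf] at this
      linarith
    have hB : ((f : ℂ) • (1 : Mat d)).PosSemidef := by
      refine posSemidef_of_qf (herm_smul_one f) fun v => ?_
      rw [qf_csmul, qf_one]
      exact mul_nonneg hf0 (Finset.sum_nonneg fun i _ => by positivity)
    have hBt : ((f : ℂ) • (1 : Mat d)).trace = ((f * d : ℝ) : ℂ) := by
      rw [Matrix.trace_smul, Matrix.trace_one, Fintype.card_fin, smul_eq_mul]
      push_cast
      rfl
    have hAt : (X + (f : ℂ) • (1 : Mat d)).trace = ((f * d : ℝ) : ℂ) := by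
      rw [Matrix.trace_add, hXt, zero_add, hBt]
    obtain ⟨n, hn⟩ : ∃ n : ℕ, n = ⌊t - s⌋₊ := ⟨_, rfl⟩
    obtain ⟨A', B', hA', hB', hAt', hBt', hAB⟩ := hE.iter hd hy hH hs hA hB hAt hBt n
    rw [add_sub_cancel_right, ← hq] at *
    have hn1 : (n : ℝ) ≤ t - s := by
      rw [hn]
      exact Nat.floor_le (by linarith)
    have hn2 : t - s < n + 1 := by
      rw [hn]
      exact Nat.lt_floor_add_one _
    have hsn : 0 ≤ s + n := by positivity
    have hsnt : s + n ≤ t := by linarith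
    have e1 : E t s X = E t (s + n) A' - E t (s + n) B' := by
      rw [hE.cocycle hH hs (show s ≤ s + n by linarith [(Nat.cast_nonneg n : (0 : ℝ) ≤ n)])
        hsnt X, hAB, map_sub]
    have hbd : ∀ C : Mat d, C.PosSemidef → C.trace = ((f * d * q ^ n : ℝ) : ℂ) →
        nn (E t (s + n) C) ≤ d ^ 2 * (f * d * q ^ n) := by
      intro C hC hCt
      have h1 := nn_psd (hE.posSemidef hH hsn hsnt hC)
      rwa [hE.trace hH hsn hsnt, hCt, Complex.ofReal_re] at h1
    have h2 : nn (E t s X) ≤ 2 * d ^ 3 * q ^ n * f := by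
      rw [e1]
      have := nn_sub (E t (s + n) A') (E t (s + n) B')
      have := hbd A' hA' hAt'
      have := hbd B' hB' hBt'
      have e2 : 2 * (d : ℝ) ^ 3 * q ^ n * f = d ^ 2 * (f * d * q ^ n) + d ^ 2 * (f * d * q ^ n) := by
        ring
      rw [e2]
      linarith
    have h3 : q ^ n ≤ q⁻¹ * Real.exp (-(-Real.log q * (t - s))) := by
      have e2 : q⁻¹ * Real.exp (-(-Real.log q * (t - s))) = q ^ (t - s - 1) := by
        rw [Real.rpow_def_of_pos hq0, ← Real.exp_log (inv_pos.2 hq0), Real.log_inv, ← Real.exp_add]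
        congr 1
        ring
      rw [e2, ← Real.rpow_natCast]
      exact Real.rpow_le_rpow_of_exponent_ge hq0 hq1.le (by linarith)
    have h4 := nn_le_traceNorm X
    have h5 := traceNorm_le (E t s X)
    have hTX : 0 ≤ traceNorm X := Finset.sum_nonneg fun i _ => Real.sqrt_nonneg _
    calc traceNorm (E t s X) ≤ d * nn (E t s X) := h5
      _ ≤ d * (2 * d ^ 3 * q ^ n * f) := mul_le_mul_of_nonneg_left h2 hd0.le
      _ = 2 * d ^ 4 * q ^ n * f := by ring
      _ ≤ 2 * d ^ 4 * (q⁻¹ * Real.exp (-(-Real.log q * (t - s)))) * (d ^ 2 * traceNorm X) := by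
          rw [hf]
          have := nn_nonneg X
          gcongr
      _ = 2 * d ^ 6 * q⁻¹ * Real.exp (-(-Real.log q * (t - s))) * traceNorm X := by ring

end Pool.Agent.V11261.LB
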